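import Pool.Agent.Lib_MP_f5471b_p.SepPW
import Pool.Agent.Lib_MP_f5471b_q.Gram

/-!
# MP_f5471b_nt: the lower bound with polynomial dependence on the number of places and the
Szpiro quotient
-/

namespace LangForms

open Height NumberField WeierstrassCurve Topology Filter

namespace Pow

/-- Combination of the lower bounds in terms of `h` and `R`. -/
theorem comb1 (c₀ e A : ℝ) (hc₀ : 0 < c₀) (he : 0 < e) (hA : 1 ≤ A) :
    ∃ c₁ : ℝ, 0 < c₁ ∧ c₁ ≤ c₀ ∧ ∀ h R L X : ℝ, 1 ≤ X → 0 ≤ L → 0 ≤ R → c₀ * h ≤ X * L →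
      (A * h ≤ R → e * R ≤ L) → c₁ * (h + R) ≤ X * L := by
  have hA0 : 0 < A := by linarith
  refine ⟨min (c₀ / (1 + A)) (min c₀ (e / 2)), lt_min (by positivity)
    (lt_min hc₀ (by positivity)), (min_le_right _ _).trans (min_le_left _ _), ?_⟩
  obtain ⟨c₁, hc₁⟩ : ∃ c₁ : ℝ, c₁ = min (c₀ / (1 + A)) (min c₀ (e / 2)) := ⟨_, rfl⟩
  have hc₁a : c₁ ≤ c₀ / (1 + A) := by rw [hc₁]; exact min_le_left _ _
  have hc₁c : c₁ ≤ e / 2 := by rw [hc₁]; exact (min_le_right _ _).trans (min_le_right _ _)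
  have hc₁0 : 0 < c₁ := by
    rw [hc₁]; exact lt_min (by positivity) (lt_min hc₀ (by positivity))
  rw [← hc₁]
  intro h R L X hX hL hR0 hlow hbig
  rw [le_div_iff₀ (by positivity)] at hc₁a
  rcases le_total R (A * h) with hRA | hRA
  · have hh : 0 ≤ h := by
      by_contra hneg
      push Not at hneg
      have : A * h < 0 := mul_neg_of_pos_of_neg hA0 hneg
      linarith
    calc c₁ * (h + R) ≤ c₁ * ((1 + A) * h) := mul_le_mul_of_nonneg_left (by linarith) hc₁0.le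
      _ = c₁ * (1 + A) * h := by ring
      _ ≤ c₀ * h := mul_le_mul_of_nonneg_right hc₁a hh
      _ ≤ X * L := hlow
  · have h10 : h ≤ R := by
      by_contra hlt
      push Not at hlt
      nlinarith
    calc c₁ * (h + R) ≤ c₁ * (2 * R) := mul_le_mul_of_nonneg_left (by linarith) hc₁0.le
      _ ≤ e / 2 * (2 * R) := mul_le_mul_of_nonneg_right hc₁c (by positivity)
      _ = e * R := by ring
      _ ≤ L := hbig hRA
      _ ≤ X * L := le_mul_of_one_le_left hL hX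

theorem poly_form (n : ℕ) (hn1 : 1 ≤ n) (g : ℕ) (hg : 1 ≤ g) (τ : ℝ) :
    ∃ c₁ c₂ : ℝ, 0 < c₁ ∧ 0 < c₂ ∧ ∀ (K : Type) [Field K] [NumberField K],
    Module.finrank ℚ K ≤ n → ∀ (W : WeierstrassCurve K) [W.IsElliptic],
    hW W ≤ τ * (1 + hJ W) → ∀ (s : ℕ) (σ : ℝ), 1 ≤ s → 1 ≤ σ → JCond W.j s σ →
    ∀ (F : Type) [Field F] [NumberField F] [DecidableEq F] [Algebra K F] [IsGalois K F]
    (ρ : (F ≃ₐ[K] F) →* Matrix.GeneralLinearGroup (Fin g) ℤ), Function.Injective ρ →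
    ∀ (M : Matrix (Fin g) (Fin g) ℤ), IsPol M →
    (∀ σ, (ρ σ).val.transpose * M * (ρ σ).val = M) →
    ∀ (P : Fin g → (W.baseChange F).toAffine.Point),
    (∀ σ a, ∑ b, (ρ σ).val a b • gal σ (P b) = P a) →
    (Obstructed ρ M P (c₂ * (σ ^ 2 * s) ^ (4 * 3 ^ (g ^ 2) + 2)) ∧ ¬ LinearIndependent ℤ P) ∨
      ((∀ n : ℕ, 1 ≤ n → n • P ≠ 0) ∧
      c₁ * ((M.det : ℤ) : ℝ) ^ (1 / g : ℝ) * (1 + hJ W) ≤ loss g s σ * ntL M P ∧
      ∀ S : Finset (Ideal (𝓞 K)),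
        (∀ p ∈ S, p.IsMaximal ∧ p ≠ ⊥ ∧ ¬ Algebra.IsUnramifiedIn (𝓞 F) p) →
        c₁ * (1 + hJ W + (∑ p ∈ S, Real.log (Ideal.absNorm p)) / Module.finrank ℚ K) ≤
          loss g s σ * ntL M P) := by
  classical
  obtain ⟨e₁, e₂, he₁, he₂, hT2⟩ := uniform_lower_bound_abs g hg
  obtain ⟨D₀, hD₀⟩ : ∃ D₀ : ℕ, D₀ = 3 ^ (g ^ 2) := ⟨_, rfl⟩
  have hD₀1 : 1 ≤ D₀ := by rw [hD₀]; exact Nat.one_le_iff_ne_zero.2 (by positivity)
  obtain ⟨C₁, hC₁, hlat⟩ := lat_step g D₀ hg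
  obtain ⟨C₂, c₂, hC₂, hc₂, hsep⟩ := sepP_pow n hn1 g hg D₀ hD₀1 τ
  obtain ⟨σ₁, hσ₁⟩ : ∃ σ₁, σ₁ = max τ 1 := ⟨_, rfl⟩
  have hσ1 : 1 ≤ σ₁ := by rw [hσ₁]; exact le_max_right _ _
  have hσσ : τ ≤ σ₁ := by rw [hσ₁]; exact le_max_left _ _
  obtain ⟨A, hA1, hA⟩ := big_R e₁ e₂ σ₁ he₁ he₂ (by linarith)
  obtain ⟨c₀, hc₀⟩ : ∃ c₀ : ℝ, c₀ = c₂ / C₁ := ⟨_, rfl⟩
  have hc₀0 : 0 < c₀ := by rw [hc₀]; positivity
  obtain ⟨c₁, hc₁0, hc₁c, hcomb⟩ := comb1 c₀ (e₁ / 2) A hc₀0 (by positivity) hA1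
  have hk : 4 * 3 ^ (g ^ 2) + 2 = 2 * (2 * D₀ + 1) := by rw [hD₀]; ring
  refine ⟨c₁, max e₂ (C₁ * C₂ ^ (2 * D₀ + 1)), hc₁0,
    lt_of_lt_of_le he₂ (le_max_left _ _), ?_⟩
  intro K _ _ hKn W _ hWh s σ hs hσ hjc F _ _ _ _ _ ρ hρ M hM hinv P hP
  rw [hk]
  have hJn := hJ_nonneg W
  obtain ⟨h, hh⟩ : ∃ h : ℝ, h = 1 + hJ W := ⟨_, rfl⟩
  have hh1 : 1 ≤ h := by rw [hh]; linarith
  have hh0 : 0 < h := by linarith
  obtain ⟨Z, hZ⟩ : ∃ Z : ℝ, Z = σ ^ 2 * s := ⟨_, rfl⟩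
  have hs1 : (1 : ℝ) ≤ s := by exact_mod_cast hs
  have hσ2 : 1 ≤ σ ^ 2 := one_le_pow₀ hσ
  have hZ1 : 1 ≤ Z := by
    rw [hZ]
    exact hσ2.trans (le_mul_of_one_le_right (by positivity) hs1)
  by_cases hob : Obstructed ρ M P
      (max e₂ (C₁ * C₂ ^ (2 * D₀ + 1)) * (σ ^ 2 * s) ^ (2 * (2 * D₀ + 1)))
  · exact Or.inl ⟨hob, obstructed_not_li hob⟩
  right
  have hcard : Nat.card (F ≃ₐ[K] F) ≤ D₀ := by
    rw [hD₀]; exact card_le_of_injective ρ hρ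
  have hcardF : Nat.card (F ≃ₐ[K] F) = Module.finrank K F := IsGalois.card_aut_eq_finrank K F
  obtain ⟨m, b, hm1, hm2, hb, hSp, hmb⟩ := hsep K hKn W hWh s σ hs hσ hjc F
    (by rw [← hcardF]; exact hcard)
  obtain ⟨X, hX⟩ : ∃ X : ℝ, X = loss g s σ := ⟨_, rfl⟩
  have hX1 : 1 ≤ X := by rw [hX]; exact one_le_loss g s σ hs hσ
  have hX0 : 0 < X := by linarith
  rw [← hh, ← hX] at hmb
  rw [← hZ] at hm2 hob
  have hk1 : (1 : ℝ) ≤ Z ^ (2 * (2 * D₀ + 1)) := one_le_pow₀ hZ1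
  rcases hlat (F ≃ₐ[K] F) hcard _ gal ρ M hM hinv P hP nt nt_par nt_nonneg m b hm1 hb hSp with
    ⟨h1, _⟩ | ⟨h1, h2⟩
  · exfalso
    apply hob
    refine h1.mono hM ?_
    have h3 : m ^ (2 * D₀ + 1) ≤ (C₂ * Z ^ 2) ^ (2 * D₀ + 1) :=
      pow_le_pow_left₀ (by linarith) hm2 _
    calc C₁ * m ^ (2 * D₀ + 1) ≤ C₁ * (C₂ * Z ^ 2) ^ (2 * D₀ + 1) :=
          mul_le_mul_of_nonneg_left h3 (by linarith)
      _ = C₁ * C₂ ^ (2 * D₀ + 1) * Z ^ (2 * (2 * D₀ + 1)) := by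
        rw [mul_pow, ← pow_mul]; ring
      _ ≤ _ := mul_le_mul_of_nonneg_right (le_max_right _ _) (by positivity)
  refine ⟨h1, ?_⟩
  obtain ⟨L, hL⟩ : ∃ L : ℝ, L = ntL M P := ⟨_, rfl⟩
  have hLe : (∑ a, ∑ b, (M a b : ℝ) * pairX nt (P a) (P b)) = L := by rw [hL]; rfl
  rw [hLe] at h2
  obtain ⟨w, hw⟩ : ∃ w : ℝ, w = ((M.det : ℤ) : ℝ) ^ (1 / g : ℝ) := ⟨_, rfl⟩
  have hw1 : 1 ≤ w := by
    rw [hw]
    exact Real.one_le_rpow (by exact_mod_cast det_ge_one M hM) (by positivity)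
  rw [← hw] at h2
  have hloww : c₀ * (w * h) ≤ X * L := by
    have hmp : 0 < m ^ (2 / g : ℝ) := by positivity
    have h3 : c₂ * (w * h) * m ^ (2 / g : ℝ) ≤ C₁ * (X * L) * m ^ (2 / g : ℝ) := by
      calc c₂ * (w * h) * m ^ (2 / g : ℝ) =
            w * (c₂ * h * m ^ (2 / g : ℝ)) := by ring
        _ ≤ w * (b * X) := mul_le_mul_of_nonneg_left hmb (by linarith)
        _ = X * (w * b) := by ring
        _ ≤ X * (C₁ * m ^ (2 / g : ℝ) * L) := mul_le_mul_of_nonneg_left h2 hX0.le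
        _ = _ := by ring
    have h4 := le_of_mul_le_mul_right h3 hmp
    rw [hc₀, div_mul_eq_mul_div, div_le_iff₀ (by linarith)]
    linarith
  have hlow : c₀ * h ≤ X * L := by
    refine le_trans (mul_le_mul_of_nonneg_left ?_ hc₀0.le) hloww
    exact le_mul_of_one_le_left hh0.le hw1
  have hL0 : 0 ≤ L := by
    by_contra hneg
    push Not at hneg
    have h3 : X * L < 0 := mul_neg_of_pos_of_neg hX0 hneg
    have h4 : 0 < c₀ * h := by positivity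
    linarith
  rw [← hL, ← hh, ← hw, ← hX]
  refine ⟨?_, ?_⟩
  · calc c₁ * w * h = c₁ * (w * h) := by ring
      _ ≤ c₀ * (w * h) := mul_le_mul_of_nonneg_right hc₁c (by positivity)
      _ ≤ X * L := hloww
  intro S hS
  obtain ⟨R, hR⟩ : ∃ R : ℝ, R = (∑ p ∈ S, Real.log (Ideal.absNorm p)) / Module.finrank ℚ K :=
    ⟨_, rfl⟩
  have hR0 : 0 ≤ R := by
    rw [hR]
    refine div_nonneg (Finset.sum_nonneg fun p hp => ?_) (Nat.cast_nonneg _)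
    exact Real.log_natCast_nonneg _
  rcases hT2 K W F ρ hρ M hM hinv P hP with h3 | h3
  · exfalso
    apply hob
    refine h3.mono hM ?_
    calc e₂ ≤ max e₂ (C₁ * C₂ ^ (2 * D₀ + 1)) := le_max_left _ _
      _ = max e₂ (C₁ * C₂ ^ (2 * D₀ + 1)) * 1 := (mul_one _).symm
      _ ≤ _ := mul_le_mul_of_nonneg_left hk1 (he₂.le.trans (le_max_left _ _))
  have h4 := h3 S hS
  rw [← hR, ← hL] at h4
  rw [← hR]
  refine hcomb h R L X hX1 hL0 hR0 hlow fun hRA => ?_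
  refine hA h R L (hW W) hh1 ?_ h4 hRA
  have h9 : hW W ≤ σ₁ * (1 + hJ W) :=
    hWh.trans (mul_le_mul_of_nonneg_right hσσ (by linarith))
  rwa [← hh] at h9

/-- Lower bound for the Gram determinant of a point with independent coordinates. -/
theorem gram_poly (n : ℕ) (hn1 : 1 ≤ n) (g : ℕ) (hg : 1 ≤ g) (τ : ℝ) :
    ∃ c₁ : ℝ, 0 < c₁ ∧ ∀ (K : Type) [Field K] [NumberField K],
    Module.finrank ℚ K ≤ n → ∀ (W : WeierstrassCurve K) [W.IsElliptic],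
    hW W ≤ τ * (1 + hJ W) → ∀ (s : ℕ) (σ : ℝ), 1 ≤ s → 1 ≤ σ → JCond W.j s σ →
    ∀ (F : Type) [Field F] [NumberField F] [DecidableEq F] [Algebra K F] [IsGalois K F]
    (ρ : (F ≃ₐ[K] F) →* Matrix.GeneralLinearGroup (Fin g) ℤ), Function.Injective ρ →
    ∀ (P : Fin g → (W.baseChange F).toAffine.Point), LinearIndependent ℤ P → IsKPoint ρ P →
      c₁ * (1 + hJ W) ^ g ≤ loss g s σ ^ g * (gramX nt P).det ∧
      ((∀ s, (ρ s).val = 1 ∨ (ρ s).val = -1) → ∀ S : Finset (Ideal (𝓞 K)),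
        (∀ p ∈ S, p.IsMaximal ∧ p ≠ ⊥ ∧ ¬ Algebra.IsUnramifiedIn (𝓞 F) p) →
        c₁ * (1 + hJ W + (∑ p ∈ S, Real.log (Ideal.absNorm p)) / Module.finrank ℚ K) ^ g ≤
          loss g s σ ^ g * (gramX nt P).det) := by
  classical
  have hg0 : (0 : ℝ) < g := by exact_mod_cast hg
  obtain ⟨e₁, e₂, he₁, he₂, hT2⟩ := uniform_lower_bound_abs 1 le_rfl
  obtain ⟨D₀, hD₀⟩ : ∃ D₀ : ℕ, D₀ = 3 ^ (g ^ 2) := ⟨_, rfl⟩
  have hD₀1 : 1 ≤ D₀ := by rw [hD₀]; exact Nat.one_le_iff_ne_zero.2 (by positivity)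
  obtain ⟨C₂, c₂, hC₂, hc₂, hsep⟩ := sepP_pow n hn1 g hg D₀ hD₀1 τ
  obtain ⟨σ₁, hσ₁⟩ : ∃ σ₁, σ₁ = max τ 1 := ⟨_, rfl⟩
  have hσ1 : 1 ≤ σ₁ := by rw [hσ₁]; exact le_max_right _ _
  have hσσ : τ ≤ σ₁ := by rw [hσ₁]; exact le_max_left _ _
  obtain ⟨A, hA1, hA⟩ := big_R e₁ e₂ σ₁ he₁ he₂ (by linarith)
  obtain ⟨B, hB⟩ : ∃ B : ℝ, B = 256 * g * 2 ^ (2 / g : ℝ) := ⟨_, rfl⟩
  have hB0 : 0 < B := by rw [hB]; positivity
  obtain ⟨c₁, hc₁0, hc₁c, hcomb⟩ := comb1 (c₂ / (256 * g)) (e₁ / 2 / B) A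
    (by positivity) (by positivity) hA1
  refine ⟨c₁ ^ g, by positivity, ?_⟩
  intro K _ _ hKn W _ hWh s σ hs hσ hjc F _ _ _ _ _ ρ hρ P hP hK
  have hJn := hJ_nonneg W
  obtain ⟨h, hh⟩ : ∃ h : ℝ, h = 1 + hJ W := ⟨_, rfl⟩
  have hh1 : 1 ≤ h := by rw [hh]; linarith
  have hcard : Nat.card (F ≃ₐ[K] F) ≤ D₀ := by
    rw [hD₀]; exact card_le_of_injective ρ hρ
  have hcardF : Nat.card (F ≃ₐ[K] F) = Module.finrank K F := IsGalois.card_aut_eq_finrank K F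
  obtain ⟨m, b, hm1, hm2, hb, hSp, hmb⟩ := hsep K hKn W hWh s σ hs hσ hjc F
    (by rw [← hcardF]; exact hcard)
  have h9 : hW W ≤ σ₁ * (1 + hJ W) :=
    hWh.trans (mul_le_mul_of_nonneg_right hσσ (by linarith))
  obtain ⟨X, hX⟩ : ∃ X : ℝ, X = loss g s σ := ⟨_, rfl⟩
  have hX1 : 1 ≤ X := by rw [hX]; exact one_le_loss g s σ hs hσ
  have hX0 : 0 < X := by linarith
  rw [← hh] at hmb h9
  rw [← hX] at hmb
  rw [← hh, ← hX]
  have hmb' : c₂ / X * h ^ (1 : ℝ) * m ^ (2 / g : ℝ) ≤ b := by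
    rw [Real.rpow_one]
    have e : c₂ / X * h * m ^ (2 / g : ℝ) = c₂ * h * m ^ (2 / g : ℝ) / X := by ring
    rw [e, div_le_iff₀ hX0]
    exact hmb
  have hcomb' : ∀ h R L : ℝ, 1 ≤ h → 0 ≤ R → c₂ / X / (256 * g) * h ^ (1 : ℝ) ≤ L →
      (A * h ≤ R → e₁ / 2 / B * R ≤ L) → c₁ / X * (h + R) ^ (1 : ℝ) ≤ L := by
    intro h R L h1 hR h2 h3
    rw [Real.rpow_one] at h2 ⊢
    have hL0 : 0 ≤ L := le_trans (by positivity) h2
    have h4 : c₂ / (256 * g) * h ≤ X * L := by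
      have e : c₂ / (256 * g) * h = X * (c₂ / X / (256 * g) * h) := by field_simp
      rw [e]
      exact mul_le_mul_of_nonneg_left h2 hX0.le
    have h5 := hcomb h R L X hX1 hL0 hR h4 h3
    have e : c₁ / X * (h + R) = c₁ * (h + R) / X := by ring
    rw [e, div_le_iff₀ hX0]
    linarith
  have hconv : ∀ x Δ : ℝ, 0 ≤ x → (c₁ / X) ^ g * x ^ ((1 : ℝ) * g) ≤ Δ →
      c₁ ^ g * x ^ g ≤ X ^ g * Δ := by
    intro x Δ hx h1
    rw [one_mul, Real.rpow_natCast] at h1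
    have e : c₁ ^ g * x ^ g = X ^ g * ((c₁ / X) ^ g * x ^ g) := by
      rw [div_pow]
      field_simp
    rw [e]
    exact mul_le_mul_of_nonneg_left h1 (by positivity)
  refine ⟨?_, ?_⟩
  · have h1 := reg_abs hg (X := (W.baseChange F).toAffine.Point) nt nt_par nt_nonneg P hP
      (c₁ / X) (c₂ / X) (e₁ / 2) A B h 0 m b 1 hB (by positivity) hcomb' hh1 le_rfl hm1 hSp hmb'
      fun h0 => by
        exfalso
        nlinarith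
    rw [add_zero] at h1
    exact hconv h _ (by linarith) h1
  intro hsc S hS
  obtain ⟨R, hR⟩ : ∃ R : ℝ, R = (∑ p ∈ S, Real.log (Ideal.absNorm p)) / Module.finrank ℚ K :=
    ⟨_, rfl⟩
  have hR0 : 0 ≤ R := by
    rw [hR]
    refine div_nonneg (Finset.sum_nonneg fun p hp => ?_) (Nat.cast_nonneg _)
    exact Real.log_natCast_nonneg _
  rw [← hR]
  obtain ⟨ρ₁, hρ₁, hval⟩ := exists_chi hg ρ hρ hsc
  have hK1 := kp_scalar ρ ρ₁ hval gal P hK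
  have hpt : A * h ≤ R → ∀ ℓ : Fin g → ℤ, ℓ ≠ 0 → e₁ / 2 * R ≤ nt (Phi P ℓ) := by
    intro hRA ℓ hℓ
    have hKx := kp_phi ρ₁ gal P hK1 ℓ
    rcases hT2 K W F ρ₁ hρ₁ 1 isPol_one (fun s => gl_one (ρ₁ s)) (fun _ => Phi P ℓ) hKx with
      h3 | h3
    · exact absurd (li_phi hP hℓ) (obstructed_not_li h3)
    have h4 := h3 S hS
    rw [ntL_one, ← hR] at h4
    exact hA h R _ (hW W) hh1 h9 h4 hRA
  have h1 := reg_abs hg (X := (W.baseChange F).toAffine.Point) nt nt_par nt_nonneg P hP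
    (c₁ / X) (c₂ / X) (e₁ / 2) A B h R m b 1 hB (by positivity) hcomb' hh1 hR0 hm1 hSp hmb' hpt
  exact hconv (h + R) _ (by linarith) h1

end Pow

end LangForms
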