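import Pool.Agent.Lib_MP_f5471b_q.PairsC

/-!
# MP_f5471b_nt: pairs of points with a large sum of local terms, general form
-/

namespace LangForms

namespace Pow

open Finset

section

variable {X : Type} [AddCommGroup X] {α : Type} {T : Finset α} {L : α → ℝ} {ρ : α → X → ℝ}

/-- The average of the local terms is almost nonnegative. -/
theorem pairP0 (hC : ∀ v ∈ T, Circ (L v) (ρ v)) (S : Finset X) (n : ℝ) (hn : 1 ≤ n)
    (hS : n + 1 ≤ S.card) :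
    ∃ x ∈ S, ∃ y ∈ S, x ≠ y ∧ -((∑ v ∈ T, L v) / (6 * n)) ≤ bsum T L ρ (x - y) := by
  have hc2 : (2 : ℝ) ≤ S.card := by linarith
  obtain ⟨x, hx, y, hy, hxy, h⟩ := avg_pair S (fun x y => bsum T L ρ (x - y))
    ((∑ v ∈ T, L v) / 6) 0 (by exact_mod_cast hc2)
    (fun x => by simp only [sub_self]; exact bsum_zero hC)
    (bsum_psd hC S).sum_nonneg
  refine ⟨x, hx, y, hy, hxy, ?_⟩
  have hW : 0 ≤ ∑ v ∈ T, L v := Finset.sum_nonneg fun v hv => (hC v hv).pos.le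
  obtain ⟨W, hWd⟩ : ∃ W, W = ∑ v ∈ T, L v := ⟨_, rfl⟩
  obtain ⟨k, hk⟩ : ∃ k : ℝ, k = S.card := ⟨_, rfl⟩
  rw [← hWd, ← hk] at h
  rw [← hWd] at hW ⊢
  rw [← hk] at hc2 hS
  obtain ⟨B, hB⟩ : ∃ B : ℝ, B = bsum T L ρ (x - y) := ⟨_, rfl⟩
  rw [← hB] at h ⊢
  by_contra hlt
  push Not at hlt
  have hB0 : 6 * n * B < -W := by
    have h1 : 6 * n * B < 6 * n * (-(W / (6 * n))) := mul_lt_mul_of_pos_left hlt (by linarith)
    have h2 : 6 * n * (-(W / (6 * n))) = -W := by field_simp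
    linarith
  have hBneg : B < 0 := by
    by_contra hge
    push Not at hge
    have : 0 ≤ 6 * n * B := by positivity
    linarith
  -- `(k - 1) B ≤ n B`
  have h3 : (k - 1) * B ≤ n * B := mul_le_mul_of_nonpos_right (by linarith) hBneg.le
  have h4 : k * (6 * ((k - 1) * B) + W) < 0 := mul_neg_of_pos_of_neg (by linarith) (by linarith)
  have h5 : 0 - k * (W / 6) ≤ (k ^ 2 - k) * B := h
  have e : k * (6 * ((k - 1) * B) + W) = 6 * ((k ^ 2 - k) * B - (0 - k * (W / 6))) := by ring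
  rw [e] at h4
  linarith

/-- First moment with the logarithmic radical. -/
theorem pairP1 (hC : ∀ v ∈ T, Circ (L v) (ρ v)) (T₁ : Finset α) (hT₁ : T₁ ⊆ T) (n : α → ℕ)
    (l : α → ℝ) (hn1 : ∀ v ∈ T₁, 1 ≤ n v) (hl : ∀ v ∈ T₁, L v = n v * l v)
    (N : ℝ) (hN : 1 ≤ N) (hnN : ∀ v ∈ T₁, (n v : ℝ) ≤ N)
    (hint : ∀ v ∈ T₁, ∀ x, ∃ a : ℕ, ρ v x / L v * (2 * n v) = a)
    (S : Finset X) (h2 : 2 ≤ S.card)
    (hS : 40 * N * (∑ v ∈ T, L v) ≤ 3 * (S.card * ∑ v ∈ T₁, l v)) :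
    ∃ x ∈ S, ∃ y ∈ S, x ≠ y ∧ (∑ v ∈ T₁, l v) / (80 * N) ≤ bsum T L ρ (x - y) := by
  classical
  have hNpos : 0 < N := by linarith
  have hc2 : (2 : ℝ) ≤ S.card := by exact_mod_cast h2
  obtain ⟨W, hWd⟩ : ∃ W, W = ∑ v ∈ T, L v := ⟨_, rfl⟩
  obtain ⟨R, hRd⟩ : ∃ R, R = ∑ v ∈ T₁, l v := ⟨_, rfl⟩
  have hlow : R * (S.card : ℝ) ^ 2 / (40 * N) ≤
      ∑ x ∈ S, ∑ y ∈ S, bsum T L ρ (x - y) := by
    rw [bsum_sum]
    have e2 : R * (S.card : ℝ) ^ 2 / (40 * N) =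
        ∑ v ∈ T₁, l v * ((S.card : ℝ) ^ 2 / (40 * N)) := by
      rw [← Finset.sum_mul, ← hRd]
      ring
    rw [e2]
    calc ∑ v ∈ T₁, l v * ((S.card : ℝ) ^ 2 / (40 * N))
        ≤ ∑ v ∈ T₁, L v * ∑ x ∈ S, ∑ y ∈ S, bv (L v) (ρ v) (x - y) := by
          refine Finset.sum_le_sum fun v hv => ?_
          have hL := (hC v (hT₁ hv)).pos
          have h0 : (0 : ℝ) < n v := by exact_mod_cast (hn1 v hv)
          have h1 := hnN v hv
          have hl0 : 0 < l v := by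
            by_contra hle
            push Not at hle
            have : (n v : ℝ) * l v ≤ 0 := mul_nonpos_of_nonneg_of_nonpos h0.le hle
            rw [← hl v hv] at this
            linarith
          have h3 := (hC v (hT₁ hv)).first S (n v) (hn1 v hv) (hint v hv)
          refine le_trans ?_ (mul_le_mul_of_nonneg_left h3 hL.le)
          rw [hl v hv]
          have e3 : (n v : ℝ) * l v * ((S.card : ℝ) ^ 2 / (40 * (n v : ℝ) ^ 2)) =
              l v * ((S.card : ℝ) ^ 2 / (40 * n v)) := by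
            field_simp
          rw [e3]
          refine mul_le_mul_of_nonneg_left ?_ hl0.le
          gcongr
      _ ≤ _ := by
          refine Finset.sum_le_sum_of_subset_of_nonneg hT₁ fun v hv _ => ?_
          exact mul_nonneg (hC v hv).pos.le ((hC v hv).psd_bv S).sum_nonneg
  obtain ⟨x, hx, y, hy, hxy, h⟩ := avg_pair S (fun x y => bsum T L ρ (x - y))
    (W / 6) _ h2 (fun x => by
      simp only [sub_self]; rw [hWd]; exact bsum_zero hC) hlow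
  refine ⟨x, hx, y, hy, hxy, ?_⟩
  obtain ⟨m, hm⟩ : ∃ m : ℝ, m = S.card := ⟨_, rfl⟩
  rw [← hm] at h hc2
  rw [← hm, ← hWd, ← hRd] at hS
  rw [← hRd]
  by_contra hlt
  push Not at hlt
  have hm2 : 0 < m ^ 2 - m := by nlinarith
  have hR0 : 0 ≤ R := by
    rw [hRd]
    refine Finset.sum_nonneg fun v hv => ?_
    have h0 : (0 : ℝ) < n v := by exact_mod_cast (hn1 v hv)
    have h3 := (hC v (hT₁ hv)).pos
    rw [hl v hv] at h3
    by_contra hle
    push Not at hle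
    have h4 : (n v : ℝ) * l v ≤ 0 := mul_nonpos_of_nonneg_of_nonpos h0.le hle.le
    linarith
  have h1 : (m ^ 2 - m) * bsum T L ρ (x - y) < (m ^ 2 - m) * (R / (80 * N)) :=
    mul_lt_mul_of_pos_left hlt hm2
  have hq : 0 ≤ R / (80 * N) := by positivity
  have h3 : (m ^ 2 - m) * (R / (80 * N)) ≤ m ^ 2 * (R / (80 * N)) :=
    mul_le_mul_of_nonneg_right (by linarith) hq
  have h4 : R * m ^ 2 / (40 * N) - m * (W / 6) < m ^ 2 * (R / (80 * N)) :=
    lt_of_lt_of_le (lt_of_le_of_lt h h1) h3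
  have e1 : R * m ^ 2 / (40 * N) = 2 * (m ^ 2 * (R / (80 * N))) := by
    field_simp
    ring
  have h5 : m * (W / 6) ≤ m ^ 2 * (R / (80 * N)) := by
    have e : m ^ 2 * (R / (80 * N)) = m * (m * R / (80 * N)) := by ring
    rw [e]
    refine mul_le_mul_of_nonneg_left ?_ (by linarith)
    rw [div_le_div_iff₀ (by norm_num) (by positivity)]
    linarith
  linarith

/-- Second moment, code bound. -/
theorem pairP2 (hC : ∀ v ∈ T, Circ (L v) (ρ v)) (κ : ℝ) (hκ0 : 0 < κ)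
    (hWp : 0 < ∑ v ∈ T, L v) (hQ : κ * (∑ v ∈ T, L v) ^ 2 ≤ ∑ v ∈ T, L v ^ 2)
    (S : Finset X) (hS : 70 ≤ κ * S.card) (β : ℝ)
    (hβ3 : β ^ 3 * 600 ^ 2 ≤ κ ^ 2 * (∑ v ∈ T, L v) ^ 3) :
    ∃ x ∈ S, ∃ y ∈ S, x ≠ y ∧ β ≤ bsum T L ρ (x - y) := by
  classical
  obtain ⟨W, hWd⟩ : ∃ W, W = ∑ v ∈ T, L v := ⟨_, rfl⟩
  have hQW : ∑ v ∈ T, L v ^ 2 ≤ W ^ 2 := by
    rw [hWd]
    exact Finset.sum_sq_le_sq_sum_of_nonneg fun v hv => (hC v hv).pos.le
  rw [← hWd] at hWp hQ hβ3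
  have hκ1 : κ ≤ 1 := by
    have h1 : κ * W ^ 2 ≤ 1 * W ^ 2 := by linarith
    exact le_of_mul_le_mul_right h1 (by positivity)
  obtain ⟨τ, hτ⟩ : ∃ τ, τ = (κ / 600) ^ (1 / 3 : ℝ) := ⟨_, rfl⟩
  have hτ0 : 0 < τ := by rw [hτ]; positivity
  have hτ3 : τ ^ 3 = κ / 600 := by
    rw [hτ, ← Real.rpow_natCast, ← Real.rpow_mul (by positivity)]
    norm_num
  have hτ1 : τ ≤ 1 / 2 := by
    by_contra hlt
    push Not at hlt
    have h1 : (1 / 2 : ℝ) ^ 3 < τ ^ 3 := pow_lt_pow_left₀ hlt (by norm_num) (by norm_num)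
    rw [hτ3] at h1
    linarith
  have hsym : ∀ x y : X, bsum T L ρ (x - y) / W = bsum T L ρ (y - x) / W := by
    intro x y
    congr 1
    rw [bsum, bsum]
    refine Finset.sum_congr rfl fun v hv => ?_
    rw [bv, bv, (hC v hv).sub_comm]
  obtain ⟨x, hx, y, hy, hxy, h⟩ := code_step (S := S)
    (K := fun x y => bsum T L ρ (x - y) / W)
    (by
      have h1 := (bsum_psd hC S).smul (a := W⁻¹) (by positivity)
      refine fun c => (h1 c).trans (le_of_eq ?_)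
      refine Finset.sum_congr rfl fun x _ => Finset.sum_congr rfl fun y _ => ?_
      change c x * c y * (W⁻¹ * bsum T L ρ (x - y)) = c x * c y * (bsum T L ρ (x - y) / W)
      rw [div_eq_inv_mul])
    hsym
    (fun x => by
      simp only [sub_self]
      rw [bsum_zero hC, ← hWd]
      field_simp)
    κ τ
    (by
      have h1 := bsum_sq hC S
      have e : ∑ x ∈ S, ∑ y ∈ S, (bsum T L ρ (x - y) / W) ^ 2 =
          (∑ x ∈ S, ∑ y ∈ S, bsum T L ρ (x - y) ^ 2) / W ^ 2 := by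
        rw [Finset.sum_div]
        refine Finset.sum_congr rfl fun x _ => ?_
        rw [Finset.sum_div]
        refine Finset.sum_congr rfl fun y _ => ?_
        rw [div_pow]
      rw [e, le_div_iff₀ (by positivity)]
      refine le_trans ?_ h1
      have e2 : κ / 195 * (S.card : ℝ) ^ 2 * W ^ 2 =
          (κ * W ^ 2) / 195 * (S.card : ℝ) ^ 2 := by ring
      rw [e2]
      gcongr)
    hκ0 hτ0 hτ1 hτ3.le hS
  refine ⟨x, hx, y, hy, hxy, ?_⟩
  have h1 : τ ^ 2 * W < bsum T L ρ (x - y) := by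
    rwa [lt_div_iff₀ hWp] at h
  refine le_trans ?_ h1.le
  have h2 : β ^ 3 ≤ (τ ^ 2 * W) ^ 3 := by
    have e : (τ ^ 2 * W) ^ 3 = (τ ^ 3) ^ 2 * W ^ 3 := by ring
    rw [e, hτ3]
    have e2 : (κ / 600) ^ 2 * W ^ 3 = κ ^ 2 * W ^ 3 / 600 ^ 2 := by ring
    rw [e2, le_div_iff₀ (by norm_num)]
    exact hβ3
  exact le_of_pow_le_pow_left₀ (by norm_num) (by positivity) h2

/-- Second and third moment. -/
theorem pairP3 (hC : ∀ v ∈ T, Circ (L v) (ρ v)) (κ : ℝ) (hκ0 : 0 < κ)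
    (hWp : 0 < ∑ v ∈ T, L v) (hQ : κ * (∑ v ∈ T, L v) ^ 2 ≤ ∑ v ∈ T, L v ^ 2)
    (S : Finset X) (hS : 450 ^ 3 ≤ κ ^ 3 * (S.card : ℝ) ^ 2) (β : ℝ)
    (hβ2 : β ^ 2 * 450 ≤ κ * (∑ v ∈ T, L v) ^ 2) :
    ∃ x ∈ S, ∃ y ∈ S, x ≠ y ∧ β ≤ bsum T L ρ (x - y) := by
  classical
  obtain ⟨W, hWd⟩ : ∃ W, W = ∑ v ∈ T, L v := ⟨_, rfl⟩
  have hQW : ∑ v ∈ T, L v ^ 2 ≤ W ^ 2 := by
    rw [hWd]
    exact Finset.sum_sq_le_sq_sum_of_nonneg fun v hv => (hC v hv).pos.le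
  rw [← hWd] at hWp hQ hβ2
  have hκ1 : κ ≤ 1 := by
    have h1 : κ * W ^ 2 ≤ 1 * W ^ 2 := by linarith
    exact le_of_mul_le_mul_right h1 (by positivity)
  obtain ⟨τ, hτ⟩ : ∃ τ, τ = Real.sqrt (κ / 450) := ⟨_, rfl⟩
  have hτ0 : 0 < τ := by rw [hτ]; exact Real.sqrt_pos.2 (by positivity)
  have hτ2 : τ ^ 2 = κ / 450 := by
    rw [hτ, Real.sq_sqrt (by positivity)]
  have hτ1 : τ ≤ 1 := by
    by_contra hlt
    push Not at hlt
    have h1 : (1 : ℝ) ^ 2 < τ ^ 2 := pow_lt_pow_left₀ hlt (by norm_num) (by norm_num)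
    rw [hτ2] at h1
    linarith
  have hn1 : 1 ≤ τ ^ 3 * (S.card : ℝ) := by
    have h1 : (1 : ℝ) ^ 2 ≤ (τ ^ 3 * (S.card : ℝ)) ^ 2 := by
      have e : (τ ^ 3 * (S.card : ℝ)) ^ 2 = (τ ^ 2) ^ 3 * (S.card : ℝ) ^ 2 := by ring
      rw [e, hτ2]
      have e2 : (κ / 450) ^ 3 * (S.card : ℝ) ^ 2 = κ ^ 3 * (S.card : ℝ) ^ 2 / 450 ^ 3 := by ring
      rw [e2, le_div_iff₀ (by norm_num)]
      linarith
    exact le_of_pow_le_pow_left₀ (by norm_num) (by positivity) h1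
  obtain ⟨x, hx, y, hy, hxy, h⟩ := third_step (S := S)
    (K := fun x y => bsum T L ρ (x - y) / W)
    (by
      have h1 := (bsum_psd hC S).sum_nonneg
      have e : ∑ x ∈ S, ∑ y ∈ S, bsum T L ρ (x - y) / W =
          (∑ x ∈ S, ∑ y ∈ S, bsum T L ρ (x - y)) / W := by
        rw [Finset.sum_div]
        exact Finset.sum_congr rfl fun x _ => (Finset.sum_div _ _ _).symm
      rw [e]
      positivity)
    (by
      have h1 := (bsum_psd_mul hC (bsum_psd_mul hC (bsum_psd hC S))).sum_nonneg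
      have e : ∑ x ∈ S, ∑ y ∈ S, (bsum T L ρ (x - y) / W) ^ 3 =
          (∑ x ∈ S, ∑ y ∈ S, bsum T L ρ (x - y) * bsum T L ρ (x - y) * bsum T L ρ (x - y)) /
            W ^ 3 := by
        rw [Finset.sum_div]
        refine Finset.sum_congr rfl fun x _ => ?_
        rw [Finset.sum_div]
        refine Finset.sum_congr rfl fun y _ => ?_
        rw [div_pow]
        ring
      rw [e]
      positivity)
    (fun x => by
      simp only [sub_self]
      rw [bsum_zero hC, ← hWd]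
      field_simp)
    κ τ
    (by
      have h1 := bsum_sq hC S
      have e : ∑ x ∈ S, ∑ y ∈ S, (bsum T L ρ (x - y) / W) ^ 2 =
          (∑ x ∈ S, ∑ y ∈ S, bsum T L ρ (x - y) ^ 2) / W ^ 2 := by
        rw [Finset.sum_div]
        refine Finset.sum_congr rfl fun x _ => ?_
        rw [Finset.sum_div]
        refine Finset.sum_congr rfl fun y _ => ?_
        rw [div_pow]
      rw [e, le_div_iff₀ (by positivity)]
      refine le_trans ?_ h1
      have e2 : κ / 195 * (S.card : ℝ) ^ 2 * W ^ 2 =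
          (κ * W ^ 2) / 195 * (S.card : ℝ) ^ 2 := by ring
      rw [e2]
      gcongr)
    hτ0 hτ1 (by rw [hτ2]; linarith) hn1
  refine ⟨x, hx, y, hy, hxy, ?_⟩
  have h1 : τ * W ≤ bsum T L ρ (x - y) := by
    rwa [le_div_iff₀ hWp] at h
  refine le_trans ?_ h1
  have h2 : β ^ 2 ≤ (τ * W) ^ 2 := by
    rw [mul_pow, hτ2]
    have e2 : κ / 450 * W ^ 2 = κ * W ^ 2 / 450 := by ring
    rw [e2, le_div_iff₀ (by norm_num)]
    exact hβ2
  exact le_of_pow_le_pow_left₀ (by norm_num) (by positivity) h2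

end

end Pow

end LangForms
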