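import Pool.Agent.Lib_MP_f5471b_nt.Final
import Pool.Agent.Lib_MP_f5471b_j.JBase
import Pool.Agent.Lib_MP_f5471b_j.Final

/-!
# MP_f5471b_nt: constants which do not depend on the number field
-/

namespace LangForms

open Height NumberField WeierstrassCurve Topology Filter IsDedekindDomain

/-- `uniform_lower_bound` with constants which depend only on `g`. -/
theorem uniform_lower_bound_abs (g : ℕ) (hg : 1 ≤ g) :
    ∃ c₁ c₂ : ℝ, 0 < c₁ ∧ 0 < c₂ ∧ ∀ (K : Type) [Field K] [NumberField K]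
    (W : WeierstrassCurve K) [W.IsElliptic]
    (F : Type) [Field F] [NumberField F] [DecidableEq F] [Algebra K F] [IsGalois K F]
    (ρ : (F ≃ₐ[K] F) →* Matrix.GeneralLinearGroup (Fin g) ℤ), Function.Injective ρ →
    ∀ (M : Matrix (Fin g) (Fin g) ℤ), IsPol M →
    (∀ σ, (ρ σ).val.transpose * M * (ρ σ).val = M) →
    ∀ (P : Fin g → (W.baseChange F).toAffine.Point),
    (∀ σ a, ∑ b, (ρ σ).val a b • gal σ (P b) = P a) →
    Obstructed ρ M P c₂ ∨
      ∀ S : Finset (Ideal (𝓞 K)),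
        (∀ p ∈ S, p.IsMaximal ∧ p ≠ ⊥ ∧ ¬ Algebra.IsUnramifiedIn (𝓞 F) p) →
        c₁ * ((∑ p ∈ S, Real.log (Ideal.absNorm p)) / Module.finrank ℚ K) ≤
          ntL M P + c₂ * (1 + hW W) := by
  obtain ⟨D₀, hD₀⟩ : ∃ D₀ : ℕ, D₀ = 3 ^ (g ^ 2) := ⟨_, rfl⟩
  obtain ⟨C₁, hC₁, hkey⟩ := key1 g D₀ hg
  obtain ⟨Ca, hCa, happ⟩ := approx_par
  obtain ⟨Cr, hCr, har⟩ := arith_main
  have hDpos : (0 : ℝ) < D₀ := by rw [hD₀]; positivity
  obtain ⟨D', hD'⟩ : ∃ D' : ℝ, D' = 2 ^ D₀ := ⟨_, rfl⟩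
  have hD'pos : 0 < D' := by rw [hD']; positivity
  refine ⟨1 / (2 * D' * (8 * D₀ * C₁)),
    max C₁ ((2 * D' * (Ca * D₀) + Cr * D₀) / (2 * D' * (8 * D₀ * C₁))), by positivity,
    lt_of_lt_of_le hC₁ (le_max_left _ _), ?_⟩
  intro K _ _ W _ F _ _ _ _ _ ρ hρ M hM hinv P hP
  by_cases hob : Obstructed ρ M P C₁
  · exact Or.inl (hob.mono hM (le_max_left _ _))
  right
  intro S hS
  have hcard : Nat.card (F ≃ₐ[K] F) ≤ D₀ := by
    rw [hD₀]; exact card_le_of_injective ρ hρ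
  have hcardF : Nat.card (F ≃ₐ[K] F) = Module.finrank K F := IsGalois.card_aut_eq_finrank K F
  obtain ⟨T, hT1, hT2⟩ := exists_primes (F := F) S hS
  have hWF := hWrel_nonneg (W.baseChange F)
  have hLnn : 0 ≤ ntL M P := ntL_nonneg M hM P
  have hnpos : (0 : ℝ) < Module.finrank ℚ K := by exact_mod_cast Module.finrank_pos
  have hFpos : (0 : ℝ) < Module.finrank ℚ F := by exact_mod_cast Module.finrank_pos
  have happ' := happ F (W.baseChange F)
  obtain ⟨E, hE⟩ : ∃ E : ℝ, E = Ca * (Module.finrank ℚ F + hWrel (W.baseChange F)) := ⟨_, rfl⟩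
  rw [← hE] at happ'
  obtain ⟨B, hB⟩ : ∃ B : ℝ, B = 8 * Module.finrank ℚ F * C₁ * ntL M P + E := ⟨_, rfl⟩
  have hEnn : 0 ≤ E := by rw [hE]; positivity
  have hBnn : 0 ≤ B := by rw [hB]; positivity
  have hQ : ∀ H : Subgroup (F ≃ₐ[K] F), H ≠ ⊥ → ∃ σ ∈ H,
      ∃ Q : (W.baseChange F).toAffine.Point, gal σ Q ≠ Q ∧ hx Q ≤ B ∧ hx (gal σ Q - Q) ≤ B := by
    intro H hH
    rcases hkey (F ≃ₐ[K] F) hcard _ gal ρ hρ M hM hinv P hP H hH with h | ⟨σ, hσ, ℓ, hℓ, hne⟩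
    · exact absurd h hob
    refine ⟨σ, hσ, Phi P ℓ, hne, ?_, ?_⟩
    · rw [hB]
      exact hx_Phi_le M hM C₁ E ℓ (Sh_mono M hM (by linarith) ℓ hℓ) P happ'
    · rw [Phi_act gal ρ P hP, ← Phi_sub, hB]
      exact hx_Phi_le M hM C₁ E _ (Sh_sub M _ _ _ (Sh_act ρ M hinv _ _ hℓ σ) hℓ) P happ'
  have hmain := har K F W T hT1 B hBnn hQ
  have hsub : (Nat.card (Subgroup (F ≃ₐ[K] F)) : ℝ) ≤ D' := by
    rw [hD']; exact_mod_cast card_subgroup_le _ D₀ hcard
  have hW0 : 0 ≤ hW W := by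
    have := hWrel_nonneg W
    simp only [hW]; positivity
  have hfin := real_step D₀ D' C₁ Ca Cr (Module.finrank ℚ K) (Module.finrank K F) (ntL M P)
    (hW W) B E (Module.finrank ℚ F) (hWrel (W.baseChange F))
    (Nat.card (Subgroup (F ≃ₐ[K] F))) (∑ p ∈ S, Real.log (Ideal.absNorm p))
    (∑ v ∈ T, Real.log (Ideal.absNorm v.asIdeal)) hDpos hD'pos hC₁ hCa hCr hnpos
    (Nat.cast_nonneg _) (by rw [← hcardF]; exact_mod_cast hcard) hLnn hW0 (Nat.cast_nonneg _) hsub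
    (by exact_mod_cast (Module.finrank_mul_finrank ℚ K F).symm)
    (by rw [hWrel_baseChange, hW]; field_simp) hE hB hT2 hmain
  refine hfin.trans ?_
  have h1 : 0 ≤ 1 + hW W := by linarith
  have h2 := le_max_right C₁ ((2 * D' * (Ca * D₀) + Cr * D₀) / (2 * D' * (8 * D₀ * C₁)))
  have h3 := mul_le_mul_of_nonneg_right h2 h1
  linarith

/-- The absolute height of the coefficients does not change under extension of the field. -/
theorem hW_baseChange {K F : Type} [Field K] [NumberField K] [Field F] [NumberField F]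
    [Algebra K F] (W : WeierstrassCurve K) : hW (W.baseChange F) = hW W := by
  have h1 : (Module.finrank ℚ F : ℝ) = Module.finrank ℚ K * Module.finrank K F := by
    exact_mod_cast (Module.finrank_mul_finrank ℚ K F).symm
  have h2 : (0 : ℝ) < Module.finrank ℚ K := by exact_mod_cast Module.finrank_pos
  have h3 : (0 : ℝ) < Module.finrank K F := by exact_mod_cast Module.finrank_pos
  rw [hW, hW, hWrel_baseChange, h1]
  field_simp

/-- Every `j`-invariant has a model of small height, with an absolute constant. -/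
theorem exists_model_abs : ∃ C : ℝ, 0 < C ∧ ∀ (K : Type) [Field K] [NumberField K] (j : K),
    ∃ (W : WeierstrassCurve K) (_ : W.IsElliptic), W.j = j ∧ hW W ≤ C * (1 + hJ W) := by
  obtain ⟨A, hA⟩ : ∃ A : ℝ, A = logHeight (![1, -36, -1, 0] : Fin 4 → ℚ) + (Real.log 2 +
    logHeight₁ (1728 : ℚ)) := ⟨_, rfl⟩
  have h3Q : Fact (IsUnit (3 : ℚ)) := ⟨by norm_num⟩
  have h2Q : Fact (IsUnit (2 : ℚ)) := ⟨by norm_num⟩
  obtain ⟨C, hC⟩ : ∃ C : ℝ, C = max 1 (max (hW (ofJ0 ℚ)) (max (hW (ofJ1728 ℚ)) A)) := ⟨_, rfl⟩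
  have hC1 : 1 ≤ C := by rw [hC]; exact le_max_left _ _
  have hC0 : hW (ofJ0 ℚ) ≤ C := by rw [hC]; exact (le_max_left _ _).trans (le_max_right _ _)
  have hC2 : hW (ofJ1728 ℚ) ≤ C := by
    rw [hC]; exact (le_max_left _ _).trans ((le_max_right _ _).trans (le_max_right _ _))
  have hC3 : A ≤ C := by
    rw [hC]; exact (le_max_right _ _).trans ((le_max_right _ _).trans (le_max_right _ _))
  refine ⟨C, by linarith, ?_⟩
  intro K _ _ j
  have hd : (0 : ℝ) < Module.finrank ℚ K := by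
    exact_mod_cast Module.finrank_pos
  have : Fact (IsUnit (3 : K)) := ⟨by norm_num⟩
  have : Fact (IsUnit (2 : K)) := ⟨by norm_num⟩
  have hb0 : (ofJ0 ℚ).baseChange K = ofJ0 K := by
    ext <;> simp [ofJ0, WeierstrassCurve.baseChange]
  have hb1 : (ofJ1728 ℚ).baseChange K = ofJ1728 K := by
    ext <;> simp [ofJ1728, WeierstrassCurve.baseChange]
  have hJ0 : ∀ (W : WeierstrassCurve K) [W.IsElliptic], 0 ≤ hJ W := fun W _ =>
    div_nonneg (zero_le_logHeight₁ _) hd.le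
  by_cases hj0 : j = 0
  · refine ⟨ofJ0 K, inferInstance, ?_, ?_⟩
    · rw [hj0]; exact ofJ0_j K
    · have h1 : hW (ofJ0 K) ≤ C := by
        rw [← hb0, hW_baseChange]; exact hC0
      nlinarith [hJ0 (ofJ0 K)]
  by_cases hj : j = 1728
  · refine ⟨ofJ1728 K, inferInstance, ?_, ?_⟩
    · rw [hj]; exact ofJ1728_j K
    · have h1 : hW (ofJ1728 K) ≤ C := by
        rw [← hb1, hW_baseChange]; exact hC2
      nlinarith [hJ0 (ofJ1728 K)]
  have hj' : j - 1728 ≠ 0 := sub_ne_zero.2 hj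
  obtain ⟨t, ht⟩ : ∃ t : K, t = (j - 1728)⁻¹ := ⟨_, rfl⟩
  have ht0 : t ≠ 0 := by rw [ht]; exact inv_ne_zero hj'
  have hκ : 1 + 1728 * t = j * t := by
    rw [ht]
    field_simp
    ring
  have hκ0 : 1 + 1728 * t ≠ 0 := by
    rw [hκ]
    exact mul_ne_zero hj0 ht0
  have hell : (curveT t).IsElliptic := by
    rw [isElliptic_iff, curveT_Δ]
    exact (mul_ne_zero ht0 (pow_ne_zero 2 hκ0)).isUnit
  have hjt : (curveT t).j = j := by
    rw [jb_j_eq, curveT_Δ, curveT_c₄, div_eq_iff (mul_ne_zero ht0 (pow_ne_zero 2 hκ0))]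
    rw [pow_succ, mul_comm, hκ]
    ring
  refine ⟨curveT t, hell, hjt, ?_⟩
  have h1 := jb_height t
  have h2 : logHeight₁ t = logHeight₁ (j - 1728) := by rw [ht, logHeight₁_inv]
  have h3 := logHeight₁_sub_le j (1728 : K)
  rw [NumberField.totalWeight_eq_finrank] at h3
  have h31 : logHeight (![1, -36, -1, 0] : Fin 4 → K) =
      Module.finrank ℚ K * logHeight (![1, -36, -1, 0] : Fin 4 → ℚ) := by
    rw [← logHeight_baseChange]
    congr 1
    funext i
    fin_cases i <;> simp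
  have h32 : logHeight₁ (1728 : K) = Module.finrank ℚ K * logHeight₁ (1728 : ℚ) := by
    rw [← logHeight₁_base]
    congr 1
    exact (map_ofNat (algebraMap ℚ K) 1728).symm
  have h4 : hWrel (curveT t) ≤ Module.finrank ℚ K * A + logHeight₁ j := by
    rw [hA]
    rw [h31] at h1
    rw [h32] at h3
    linarith
  have h5 : hJ (curveT t) = logHeight₁ j / Module.finrank ℚ K := by
    unfold hJ
    rw [hjt]
  have h6 : hW (curveT t) ≤ A + hJ (curveT t) := by
    rw [h5]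
    unfold hW
    rw [div_le_iff₀ hd, add_mul, div_mul_cancel₀ _ hd.ne']
    linarith
  nlinarith [hJ0 (curveT t)]

end LangForms
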