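import Pool.Agent.Lib_MP_f5471b_q.Gram
import Pool.Agent.Lib_MP_f5471b_p.SepWd

/-!
# MP_f5471b_nt: the power form with constants which depend only on the degree of the field
-/

namespace LangForms

open Height NumberField WeierstrassCurve Topology Filter

namespace Pow

/-- For every curve there is a pair `m, b` with `Sp m b` and `m`, `b` of the right size. -/
theorem sep_pow_gen_d (n : ℕ) (hn : 1 ≤ n) (g : ℕ) (hg : 1 ≤ g) (D : ℕ) (hD : 1 ≤ D)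
    (σ ν e : ℝ) (hν0 : 0 < ν) (hν1 : 2 * ν < 1) (he1 : 1 - 2 * ν - 2 * ν * (2 / g) = e)
    (he2 : (1 + 2 * ν) / 3 - (1 - ν) * (2 / g) = e ∨
      (1 + ν) / 2 - (1 - ν) * (3 / 2) * (2 / g) = e) :
    ∃ C c : ℝ, 1 ≤ C ∧ 0 < c ∧ ∀ (K : Type) [Field K] [NumberField K],
    Module.finrank ℚ K ≤ n → ∀ (W : WeierstrassCurve K) [W.IsElliptic],
    hW W ≤ σ * (1 + hJ W) →
    ∀ (F : Type) [Field F] [NumberField F] [DecidableEq F] [Algebra K F],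
      Module.finrank K F ≤ D → ∃ m b : ℝ, 1 ≤ m ∧ m ≤ C * (1 + hJ W) ^ 2 ∧ 0 < b ∧
        Sp (nt (W := W.baseChange F)) m b ∧
        c * (1 + hJ W) ^ e * m ^ (2 / g : ℝ) ≤ b := by
  have hg0 : (0 : ℝ) < g := by exact_mod_cast hg
  have hele : e ≤ 1 := by
    rw [← he1]
    have : 0 ≤ 2 * ν * (2 / g) := by positivity
    linarith
  obtain ⟨C', hC', hsep⟩ := sep_Wd n hn D hD σ
  obtain ⟨h₁, hh₁⟩ : ∃ h₁ : ℝ, h₁ = C' ^ (1 / (1 - 2 * ν)) := ⟨_, rfl⟩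
  have hh₁1 : 1 ≤ h₁ := by
    rw [hh₁]; exact Real.one_le_rpow hC' (by apply div_nonneg; norm_num; linarith)
  obtain ⟨C, c, hC, hc, hmain⟩ := hsep h₁
  have hC0 : 0 < C := by linarith
  have hCg : 0 < C ^ (2 / g : ℝ) := by positivity
  obtain ⟨a, ha⟩ : ∃ a : ℝ, a = min c (min (c ^ (1 / 3 : ℝ)) (c ^ (1 / 2 : ℝ))) := ⟨_, rfl⟩
  have ha0 : 0 < a := by rw [ha]; positivity
  have hmin1 : a ≤ c := by rw [ha]; exact min_le_left _ _
  have hmin2 : a ≤ c ^ (1 / 3 : ℝ) := by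
    rw [ha]; exact (min_le_right _ _).trans (min_le_left _ _)
  have hmin3 : a ≤ c ^ (1 / 2 : ℝ) := by
    rw [ha]; exact (min_le_right _ _).trans (min_le_right _ _)
  refine ⟨C, a / C ^ (2 / g : ℝ), hC, by positivity, ?_⟩
  intro K _ _ hKn W _ hWh F _ _ _ _ hF
  obtain ⟨hb, hN⟩ := hmain K hKn W hWh F hF
  have hjn := hJ_nonneg W
  obtain ⟨h, hh⟩ : ∃ h : ℝ, h = 1 + hJ W := ⟨_, rfl⟩
  rw [← hh] at hb hN ⊢
  have hh1 : 1 ≤ h := by rw [hh]; linarith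
  have hh0 : 0 < h := by linarith
  have hhh2 : h ≤ h ^ 2 := by nlinarith
  -- first alternative
  have halt1 : Sp (nt (W := W.baseChange F)) C (c * h) →
      ∃ m b : ℝ, 1 ≤ m ∧ m ≤ C * h ^ 2 ∧ 0 < b ∧ Sp (nt (W := W.baseChange F)) m b ∧
        a / C ^ (2 / g : ℝ) * h ^ e * m ^ (2 / g : ℝ) ≤ b := by
    intro hs
    refine ⟨C, c * h, hC, by nlinarith, by positivity, hs, ?_⟩
    have h2 : h ^ e ≤ h := by
      calc h ^ e ≤ h ^ (1 : ℝ) := Real.rpow_le_rpow_of_exponent_le hh1 hele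
        _ = h := Real.rpow_one h
    calc a / C ^ (2 / g : ℝ) * h ^ e * C ^ (2 / g : ℝ) =
          a * h ^ e := by field_simp
      _ ≤ c * h := mul_le_mul hmin1 h2 (by positivity) hc.le
  by_cases hsmall : hJ W ≤ h₁
  · exact halt1 (hb hsmall)
  push Not at hsmall
  have hhh₁ : h₁ ≤ h := by rw [hh]; linarith
  obtain ⟨N, hNd⟩ : ∃ N : ℝ, N = h ^ ν := ⟨_, rfl⟩
  have hN1 : 1 ≤ N := by rw [hNd]; exact Real.one_le_rpow hh1 hν0.le
  have hN0 : 0 < N := by linarith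
  have hN2 : N ^ 2 = h ^ (2 * ν) := by
    rw [hNd, ← Real.rpow_natCast, ← Real.rpow_mul hh0.le]
    congr 1
    push_cast
    ring
  have hN2h : N ^ 2 ≤ h := by
    rw [hN2]
    calc h ^ (2 * ν) ≤ h ^ (1 : ℝ) := Real.rpow_le_rpow_of_exponent_le hh1 hν1.le
      _ = h := Real.rpow_one h
  have hcond : C' * N ^ 2 ≤ h := by
    have h1 : C' ≤ h ^ (1 - 2 * ν) := by
      have h2 : h₁ ^ (1 - 2 * ν) = C' := by
        rw [hh₁, ← Real.rpow_mul (by linarith), one_div_mul_cancel (by linarith), Real.rpow_one]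
      calc C' = h₁ ^ (1 - 2 * ν) := h2.symm
        _ ≤ h ^ (1 - 2 * ν) := Real.rpow_le_rpow (by linarith) hhh₁ (by linarith)
    calc C' * N ^ 2 ≤ h ^ (1 - 2 * ν) * h ^ (2 * ν) := by
          rw [hN2]
          exact mul_le_mul_of_nonneg_right h1 (by positivity)
      _ = h := by
        rw [← Real.rpow_add hh0]
        simp
  have e0 : h / N = h ^ (1 - ν) := by
    rw [hNd, Real.rpow_sub hh0, Real.rpow_one]
  have hhN : 1 ≤ h / N := by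
    rw [le_div_iff₀ hN0, one_mul]
    nlinarith
  rcases hN N hN1 hcond with hs | hs | hs
  · exact halt1 hs
  · refine ⟨C * N ^ 2, c * (h / N ^ 2), ?_,
      mul_le_mul_of_nonneg_left (hN2h.trans hhh2) hC0.le, by positivity, hs, ?_⟩
    · have : 1 ≤ N ^ 2 := one_le_pow₀ hN1
      nlinarith
    · rw [Real.mul_rpow hC0.le (by positivity), hN2]
      have e1 : (h ^ (2 * ν)) ^ (2 / g : ℝ) = h ^ (2 * ν * (2 / g)) :=
        (Real.rpow_mul hh0.le _ _).symm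
      have e2 : h / h ^ (2 * ν) = h ^ (1 - 2 * ν) := by
        rw [Real.rpow_sub hh0, Real.rpow_one]
      rw [e1, e2]
      have e3 : h ^ e * h ^ (2 * ν * (2 / g)) = h ^ (1 - 2 * ν) := by
        rw [← Real.rpow_add hh0, ← he1]
        congr 1
        ring
      calc a / C ^ (2 / g : ℝ) * h ^ e * (C ^ (2 / g : ℝ) * h ^ (2 * ν * (2 / g))) =
            a * (h ^ e * h ^ (2 * ν * (2 / g))) := by
              field_simp
        _ = a * h ^ (1 - 2 * ν) := by rw [e3]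
        _ ≤ _ := mul_le_mul_of_nonneg_right hmin1 (by positivity)
  · rcases he2 with he2 | he2
    · have hsp := hs.1 (c ^ (1 / 3 : ℝ) * h ^ ((1 + 2 * ν) / 3)) (by positivity) (by
        rw [mul_pow, ← Real.rpow_natCast, ← Real.rpow_mul hc.le, ← Real.rpow_natCast,
          ← Real.rpow_mul hh0.le, hN2]
        have a1 : (1 / 3 : ℝ) * ((3 : ℕ) : ℝ) = 1 := by norm_num
        have a2 : (1 + 2 * ν) / 3 * ((3 : ℕ) : ℝ) = 1 + 2 * ν := by push_cast; ring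
        rw [a1, a2, Real.rpow_one, Real.rpow_add hh0, Real.rpow_one])
      refine ⟨C * (h / N), _, ?_, ?_, by positivity, hsp, ?_⟩
      · nlinarith
      · refine mul_le_mul_of_nonneg_left ?_ hC0.le
        exact (div_le_self hh0.le hN1).trans hhh2
      · rw [Real.mul_rpow hC0.le (by positivity), e0]
        have e1 : (h ^ (1 - ν)) ^ (2 / g : ℝ) = h ^ ((1 - ν) * (2 / g)) :=
          (Real.rpow_mul hh0.le _ _).symm
        rw [e1]
        have e3 : h ^ e * h ^ ((1 - ν) * (2 / g)) = h ^ ((1 + 2 * ν) / 3) := by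
          rw [← Real.rpow_add hh0, ← he2]
          congr 1
          ring
        calc a / C ^ (2 / g : ℝ) * h ^ e * (C ^ (2 / g : ℝ) * h ^ ((1 - ν) * (2 / g))) =
              a * (h ^ e * h ^ ((1 - ν) * (2 / g))) := by
                field_simp
          _ = a * h ^ ((1 + 2 * ν) / 3) := by rw [e3]
          _ ≤ _ := mul_le_mul_of_nonneg_right hmin2 (by positivity)
    · have hm2 : (h ^ ((1 - ν) * (3 / 2))) ^ 2 = (h / N) ^ 3 := by
        rw [e0, ← Real.rpow_natCast, ← Real.rpow_mul hh0.le, ← Real.rpow_natCast,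
          ← Real.rpow_mul hh0.le]
        congr 1
        push_cast
        ring
      have hsp := hs.2 (C * h ^ ((1 - ν) * (3 / 2))) (c ^ (1 / 2 : ℝ) * h ^ ((1 + ν) / 2))
        (by positivity) (by positivity)
        (by
          rw [mul_pow, hm2]
          refine mul_le_mul_of_nonneg_right ?_ (by positivity)
          nlinarith)
        (by
          rw [mul_pow, ← Real.rpow_natCast, ← Real.rpow_mul hc.le, ← Real.rpow_natCast,
            ← Real.rpow_mul hh0.le, hNd]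
          have a1 : (1 / 2 : ℝ) * ((2 : ℕ) : ℝ) = 1 := by norm_num
          have a2 : (1 + ν) / 2 * ((2 : ℕ) : ℝ) = 1 + ν := by push_cast; ring
          rw [a1, a2, Real.rpow_one, Real.rpow_add hh0, Real.rpow_one])
      refine ⟨C * h ^ ((1 - ν) * (3 / 2)), _, ?_, ?_, by positivity, hsp, ?_⟩
      · have h2 : 1 ≤ h ^ ((1 - ν) * (3 / 2)) := Real.one_le_rpow hh1 (by nlinarith)
        nlinarith
      · refine mul_le_mul_of_nonneg_left ?_ hC0.le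
        calc h ^ ((1 - ν) * (3 / 2)) ≤ h ^ (2 : ℝ) :=
              Real.rpow_le_rpow_of_exponent_le hh1 (by linarith)
          _ = h ^ 2 := by norm_cast
      · rw [Real.mul_rpow hC0.le (by positivity)]
        have e1 : (h ^ ((1 - ν) * (3 / 2))) ^ (2 / g : ℝ) =
            h ^ ((1 - ν) * (3 / 2) * (2 / g)) := (Real.rpow_mul hh0.le _ _).symm
        rw [e1]
        have e3 : h ^ e * h ^ ((1 - ν) * (3 / 2) * (2 / g)) = h ^ ((1 + ν) / 2) := by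
          rw [← Real.rpow_add hh0, ← he2]
          congr 1
          ring
        calc a / C ^ (2 / g : ℝ) * h ^ e * (C ^ (2 / g : ℝ) * h ^ ((1 - ν) * (3 / 2) * (2 / g))) =
              a * (h ^ e * h ^ ((1 - ν) * (3 / 2) * (2 / g))) := by
                field_simp
          _ = a * h ^ ((1 + ν) / 2) := by rw [e3]
          _ ≤ _ := mul_le_mul_of_nonneg_right hmin3 (by positivity)

/-- For every curve there is a pair `m, b` with `Sp m b` and `m`, `b` of the right size. -/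
theorem sep_pow_d (n : ℕ) (hn : 1 ≤ n) (g : ℕ) (hg : 1 ≤ g) (D : ℕ) (hD : 1 ≤ D)
    (σ : ℝ) : ∃ C c : ℝ, 1 ≤ C ∧ 0 < c ∧ ∀ (K : Type) [Field K] [NumberField K],
    Module.finrank ℚ K ≤ n → ∀ (W : WeierstrassCurve K) [W.IsElliptic],
    hW W ≤ σ * (1 + hJ W) →
    ∀ (F : Type) [Field F] [NumberField F] [DecidableEq F] [Algebra K F],
      Module.finrank K F ≤ D → ∃ m b : ℝ, 1 ≤ m ∧ m ≤ C * (1 + hJ W) ^ 2 ∧ 0 < b ∧
        Sp (nt (W := W.baseChange F)) m b ∧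
        c * (1 + hJ W) ^ dexp g * m ^ (2 / g : ℝ) ≤ b := by
  rcases max_choice (dexp1 g) (dexp2 g) with h | h
  · exact sep_pow_gen_d n hn g hg D hD σ (nexp1 g) (dexp g) (nexp1_pos g) (nexp1_lt g)
      (by rw [dexp, h]; exact dexp1_eq1 hg) (Or.inl (by rw [dexp, h]; exact dexp1_eq2 hg))
  · exact sep_pow_gen_d n hn g hg D hD σ (nexp2 g) (dexp g) (nexp2_pos g) (nexp2_lt g)
      (by rw [dexp, h]; exact dexp2_eq1 hg) (Or.inr (by rw [dexp, h]; exact dexp2_eq2 hg))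

theorem power_form_d (n : ℕ) (hn : 1 ≤ n) (g : ℕ) (hg : 1 ≤ g) (σ : ℝ) :
    ∃ c₁ c₂ : ℝ, ∃ k : ℕ, 0 < c₁ ∧ 0 < c₂ ∧ ∀ (K : Type) [Field K] [NumberField K],
    Module.finrank ℚ K ≤ n → ∀ (W : WeierstrassCurve K) [W.IsElliptic],
    hW W ≤ σ * (1 + hJ W) →
    ∀ (F : Type) [Field F] [NumberField F] [DecidableEq F] [Algebra K F] [IsGalois K F]
    (ρ : (F ≃ₐ[K] F) →* Matrix.GeneralLinearGroup (Fin g) ℤ), Function.Injective ρ →
    ∀ (M : Matrix (Fin g) (Fin g) ℤ), IsPol M →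
    (∀ σ, (ρ σ).val.transpose * M * (ρ σ).val = M) →
    ∀ (P : Fin g → (W.baseChange F).toAffine.Point),
    (∀ σ a, ∑ b, (ρ σ).val a b • gal σ (P b) = P a) →
    (Obstructed ρ M P (c₂ * (1 + hJ W) ^ k) ∧ ¬ LinearIndependent ℤ P) ∨
      ((∀ n : ℕ, 1 ≤ n → n • P ≠ 0) ∧
      c₁ * ((M.det : ℤ) : ℝ) ^ (1 / g : ℝ) * (1 + hJ W) ^ dexp g ≤ ntL M P ∧
      ∀ S : Finset (Ideal (𝓞 K)),
        (∀ p ∈ S, p.IsMaximal ∧ p ≠ ⊥ ∧ ¬ Algebra.IsUnramifiedIn (𝓞 F) p) →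
        c₁ * (1 + hJ W + (∑ p ∈ S, Real.log (Ideal.absNorm p)) / Module.finrank ℚ K) ^ dexp g ≤
          ntL M P) := by
  classical
  obtain ⟨e₁, e₂, he₁, he₂, hT2⟩ := uniform_lower_bound_abs g hg
  obtain ⟨D₀, hD₀⟩ : ∃ D₀ : ℕ, D₀ = 3 ^ (g ^ 2) := ⟨_, rfl⟩
  have hD₀1 : 1 ≤ D₀ := by rw [hD₀]; exact Nat.one_le_iff_ne_zero.2 (by positivity)
  obtain ⟨C₁, hC₁, hlat⟩ := lat_step g D₀ hg
  obtain ⟨C₂, c₂, hC₂, hc₂, hsep⟩ := sep_pow_d n hn g hg D₀ hD₀1 σ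
  obtain ⟨σ₁, hσ₁⟩ : ∃ σ₁, σ₁ = max σ 1 := ⟨_, rfl⟩
  have hσ1 : 1 ≤ σ₁ := by rw [hσ₁]; exact le_max_right _ _
  have hσσ : σ ≤ σ₁ := by rw [hσ₁]; exact le_max_left _ _
  obtain ⟨A, hA1, hA⟩ := big_R e₁ e₂ σ₁ he₁ he₂ (by linarith)
  obtain ⟨c₀, hc₀⟩ : ∃ c₀ : ℝ, c₀ = c₂ / C₁ := ⟨_, rfl⟩
  have hc₀0 : 0 < c₀ := by rw [hc₀]; positivity
  obtain ⟨c₁, hc₁0, hc₁c, hcomb⟩ := comb (dexp g) c₀ (e₁ / 2) A (dexp_le hg) hc₀0
    (by positivity) hA1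
  refine ⟨c₁, max e₂ (C₁ * C₂ ^ (2 * D₀ + 1)), 2 * (2 * D₀ + 1), hc₁0,
    lt_of_lt_of_le he₂ (le_max_left _ _), ?_⟩
  intro K _ _ hKn W _ hWh F _ _ _ _ _ ρ hρ M hM hinv P hP
  have hJn := hJ_nonneg W
  obtain ⟨h, hh⟩ : ∃ h : ℝ, h = 1 + hJ W := ⟨_, rfl⟩
  have hh1 : 1 ≤ h := by rw [hh]; linarith
  have hh0 : 0 < h := by linarith
  by_cases hob : Obstructed ρ M P
      (max e₂ (C₁ * C₂ ^ (2 * D₀ + 1)) * (1 + hJ W) ^ (2 * (2 * D₀ + 1)))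
  · exact Or.inl ⟨hob, obstructed_not_li hob⟩
  right
  have hcard : Nat.card (F ≃ₐ[K] F) ≤ D₀ := by
    rw [hD₀]; exact card_le_of_injective ρ hρ
  have hcardF : Nat.card (F ≃ₐ[K] F) = Module.finrank K F := IsGalois.card_aut_eq_finrank K F
  obtain ⟨m, b, hm1, hm2, hb, hSp, hmb⟩ := hsep K hKn W hWh F (by rw [← hcardF]; exact hcard)
  rw [← hh] at hm2 hmb hob
  have hk1 : (1 : ℝ) ≤ h ^ (2 * (2 * D₀ + 1)) := one_le_pow₀ hh1
  rcases hlat (F ≃ₐ[K] F) hcard _ gal ρ M hM hinv P hP nt nt_par nt_nonneg m b hm1 hb hSp with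
    ⟨h1, _⟩ | ⟨h1, h2⟩
  · exfalso
    apply hob
    refine h1.mono hM ?_
    have h3 : m ^ (2 * D₀ + 1) ≤ (C₂ * h ^ 2) ^ (2 * D₀ + 1) :=
      pow_le_pow_left₀ (by linarith) hm2 _
    calc C₁ * m ^ (2 * D₀ + 1) ≤ C₁ * (C₂ * h ^ 2) ^ (2 * D₀ + 1) :=
          mul_le_mul_of_nonneg_left h3 (by linarith)
      _ = C₁ * C₂ ^ (2 * D₀ + 1) * h ^ (2 * (2 * D₀ + 1)) := by
        rw [mul_pow, ← pow_mul]; ring
      _ ≤ _ := mul_le_mul_of_nonneg_right (le_max_right _ _) (by positivity)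
  refine ⟨h1, ?_⟩
  obtain ⟨L, hL⟩ : ∃ L : ℝ, L = ntL M P := ⟨_, rfl⟩
  have hLe : (∑ a, ∑ b, (M a b : ℝ) * pairX nt (P a) (P b)) = L := by rw [hL]; rfl
  rw [hLe] at h2
  obtain ⟨w, hw⟩ : ∃ w : ℝ, w = ((M.det : ℤ) : ℝ) ^ (1 / g : ℝ) := ⟨_, rfl⟩
  have hw1 : 1 ≤ w := by
    rw [hw]
    exact Real.one_le_rpow (by exact_mod_cast det_ge_one M hM) (by positivity)
  rw [← hw] at h2
  have hloww : c₀ * (w * h ^ dexp g) ≤ L := by
    have hmp : 0 < m ^ (2 / g : ℝ) := by positivity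
    have h3 : c₂ * (w * h ^ dexp g) * m ^ (2 / g : ℝ) ≤ C₁ * L * m ^ (2 / g : ℝ) := by
      calc c₂ * (w * h ^ dexp g) * m ^ (2 / g : ℝ) =
            w * (c₂ * h ^ dexp g * m ^ (2 / g : ℝ)) := by ring
        _ ≤ w * b := mul_le_mul_of_nonneg_left hmb (by linarith)
        _ ≤ C₁ * m ^ (2 / g : ℝ) * L := h2
        _ = _ := by ring
    have h4 := le_of_mul_le_mul_right h3 hmp
    rw [hc₀, div_mul_eq_mul_div, div_le_iff₀ (by linarith)]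
    linarith
  have hhd : 0 < h ^ dexp g := by positivity
  have hlow : c₀ * h ^ dexp g ≤ L := by
    refine le_trans (mul_le_mul_of_nonneg_left ?_ hc₀0.le) hloww
    exact le_mul_of_one_le_left hhd.le hw1
  rw [← hL, ← hh, ← hw]
  refine ⟨?_, ?_⟩
  · calc c₁ * w * h ^ dexp g = c₁ * (w * h ^ dexp g) := by ring
      _ ≤ c₀ * (w * h ^ dexp g) := mul_le_mul_of_nonneg_right hc₁c (by positivity)
      _ ≤ L := hloww
  intro S hS
  obtain ⟨R, hR⟩ : ∃ R : ℝ, R = (∑ p ∈ S, Real.log (Ideal.absNorm p)) / Module.finrank ℚ K :=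
    ⟨_, rfl⟩
  have hR0 : 0 ≤ R := by
    rw [hR]
    refine div_nonneg (Finset.sum_nonneg fun p hp => ?_) (Nat.cast_nonneg _)
    exact Real.log_natCast_nonneg _
  rcases hT2 K W F ρ hρ M hM hinv P hP with h3 | h3
  · exfalso
    apply hob
    refine h3.mono hM ?_
    calc e₂ ≤ max e₂ (C₁ * C₂ ^ (2 * D₀ + 1)) := le_max_left _ _
      _ = max e₂ (C₁ * C₂ ^ (2 * D₀ + 1)) * 1 := (mul_one _).symm
      _ ≤ _ := mul_le_mul_of_nonneg_left hk1 (he₂.le.trans (le_max_left _ _))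
  have h4 := h3 S hS
  rw [← hR, ← hL] at h4
  rw [← hR]
  refine hcomb h R L hh1 hR0 hlow fun hRA => ?_
  refine hA h R L (hW W) hh1 ?_ h4 hRA
  have h9 : hW W ≤ σ₁ * (1 + hJ W) :=
    hWh.trans (mul_le_mul_of_nonneg_right hσσ (by linarith))
  rwa [← hh] at h9

/-- Lower bound for the Gram determinant of a point with independent coordinates. -/
theorem gram_form_d (n : ℕ) (hn : 1 ≤ n) (g : ℕ) (hg : 1 ≤ g) (σ : ℝ) :
    ∃ c₁ : ℝ, 0 < c₁ ∧ ∀ (K : Type) [Field K] [NumberField K],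
    Module.finrank ℚ K ≤ n → ∀ (W : WeierstrassCurve K) [W.IsElliptic],
    hW W ≤ σ * (1 + hJ W) →
    ∀ (F : Type) [Field F] [NumberField F] [DecidableEq F] [Algebra K F] [IsGalois K F]
    (ρ : (F ≃ₐ[K] F) →* Matrix.GeneralLinearGroup (Fin g) ℤ), Function.Injective ρ →
    ∀ (P : Fin g → (W.baseChange F).toAffine.Point), LinearIndependent ℤ P → IsKPoint ρ P →
      c₁ * (1 + hJ W) ^ (dexp g * g) ≤ (gramX nt P).det ∧
      ((∀ s, (ρ s).val = 1 ∨ (ρ s).val = -1) → ∀ S : Finset (Ideal (𝓞 K)),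
        (∀ p ∈ S, p.IsMaximal ∧ p ≠ ⊥ ∧ ¬ Algebra.IsUnramifiedIn (𝓞 F) p) →
        c₁ * (1 + hJ W + (∑ p ∈ S, Real.log (Ideal.absNorm p)) / Module.finrank ℚ K) ^
          (dexp g * g) ≤ (gramX nt P).det) := by
  classical
  have hg0 : (0 : ℝ) < g := by exact_mod_cast hg
  obtain ⟨e₁, e₂, he₁, he₂, hT2⟩ := uniform_lower_bound_abs 1 le_rfl
  obtain ⟨D₀, hD₀⟩ : ∃ D₀ : ℕ, D₀ = 3 ^ (g ^ 2) := ⟨_, rfl⟩
  have hD₀1 : 1 ≤ D₀ := by rw [hD₀]; exact Nat.one_le_iff_ne_zero.2 (by positivity)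
  obtain ⟨C₂, c₂, hC₂, hc₂, hsep⟩ := sep_pow_d n hn g hg D₀ hD₀1 σ
  obtain ⟨σ₁, hσ₁⟩ : ∃ σ₁, σ₁ = max σ 1 := ⟨_, rfl⟩
  have hσ1 : 1 ≤ σ₁ := by rw [hσ₁]; exact le_max_right _ _
  have hσσ : σ ≤ σ₁ := by rw [hσ₁]; exact le_max_left _ _
  obtain ⟨A, hA1, hA⟩ := big_R e₁ e₂ σ₁ he₁ he₂ (by linarith)
  obtain ⟨B, hB⟩ : ∃ B : ℝ, B = 256 * g * 2 ^ (2 / g : ℝ) := ⟨_, rfl⟩
  have hB0 : 0 < B := by rw [hB]; positivity
  obtain ⟨c₁, hc₁0, hc₁c, hcomb⟩ := comb (dexp g) (c₂ / (256 * g)) (e₁ / 2 / B) A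
    (dexp_le hg) (by positivity) (by positivity) hA1
  refine ⟨c₁ ^ g, by positivity, ?_⟩
  intro K _ _ hKn W _ hWh F _ _ _ _ _ ρ hρ P hP hK
  have hJn := hJ_nonneg W
  obtain ⟨h, hh⟩ : ∃ h : ℝ, h = 1 + hJ W := ⟨_, rfl⟩
  have hh1 : 1 ≤ h := by rw [hh]; linarith
  have hcard : Nat.card (F ≃ₐ[K] F) ≤ D₀ := by
    rw [hD₀]; exact card_le_of_injective ρ hρ
  have hcardF : Nat.card (F ≃ₐ[K] F) = Module.finrank K F := IsGalois.card_aut_eq_finrank K F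
  obtain ⟨m, b, hm1, hm2, hb, hSp, hmb⟩ := hsep K hKn W hWh F (by rw [← hcardF]; exact hcard)
  have h9 : hW W ≤ σ₁ * (1 + hJ W) :=
    hWh.trans (mul_le_mul_of_nonneg_right hσσ (by linarith))
  rw [← hh] at hm2 hmb h9
  rw [← hh]
  refine ⟨?_, ?_⟩
  · have h1 := reg_abs hg (X := (W.baseChange F).toAffine.Point) nt nt_par nt_nonneg P hP c₁ c₂
      (e₁ / 2) A B h 0 m b (dexp g) hB hc₁0 hcomb hh1 le_rfl hm1 hSp hmb fun h0 => by
        exfalso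
        nlinarith
    rwa [add_zero] at h1
  intro hsc S hS
  obtain ⟨R, hR⟩ : ∃ R : ℝ, R = (∑ p ∈ S, Real.log (Ideal.absNorm p)) / Module.finrank ℚ K :=
    ⟨_, rfl⟩
  have hR0 : 0 ≤ R := by
    rw [hR]
    refine div_nonneg (Finset.sum_nonneg fun p hp => ?_) (Nat.cast_nonneg _)
    exact Real.log_natCast_nonneg _
  rw [← hR]
  obtain ⟨ρ₁, hρ₁, hval⟩ := exists_chi hg ρ hρ hsc
  have hK1 := kp_scalar ρ ρ₁ hval gal P hK
  have hpt : A * h ≤ R → ∀ ℓ : Fin g → ℤ, ℓ ≠ 0 → e₁ / 2 * R ≤ nt (Phi P ℓ) := by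
    intro hRA ℓ hℓ
    have hKx := kp_phi ρ₁ gal P hK1 ℓ
    rcases hT2 K W F ρ₁ hρ₁ 1 isPol_one (fun s => gl_one (ρ₁ s)) (fun _ => Phi P ℓ) hKx with
      h3 | h3
    · exact absurd (li_phi hP hℓ) (obstructed_not_li h3)
    have h4 := h3 S hS
    rw [ntL_one, ← hR] at h4
    exact hA h R _ (hW W) hh1 h9 h4 hRA
  exact reg_abs hg (X := (W.baseChange F).toAffine.Point) nt nt_par nt_nonneg P hP c₁ c₂ (e₁ / 2)
    A B h R m b (dexp g) hB hc₁0 hcomb hh1 hR0 hm1 hSp hmb hpt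

end Pow

end LangForms
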