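import Pool.Agent.Lib_MP_f5471b_p.PowD

/-!
# MP_f5471b_nt: the power form with a linear bound in terms of the ramified primes
-/

namespace LangForms

open Height NumberField WeierstrassCurve Topology Filter

namespace Pow

/-- The power form; the bound in terms of the ramified primes is linear. -/
theorem power_form_r (n : ℕ) (hn : 1 ≤ n) (g : ℕ) (hg : 1 ≤ g) (σ : ℝ) :
    ∃ c₁ c₂ : ℝ, ∃ k : ℕ, 0 < c₁ ∧ 0 < c₂ ∧ ∀ (K : Type) [Field K] [NumberField K],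
    Module.finrank ℚ K ≤ n → ∀ (W : WeierstrassCurve K) [W.IsElliptic],
    hW W ≤ σ * (1 + hJ W) →
    ∀ (F : Type) [Field F] [NumberField F] [DecidableEq F] [Algebra K F] [IsGalois K F]
    (ρ : (F ≃ₐ[K] F) →* Matrix.GeneralLinearGroup (Fin g) ℤ), Function.Injective ρ →
    ∀ (M : Matrix (Fin g) (Fin g) ℤ), IsPol M →
    (∀ σ, (ρ σ).val.transpose * M * (ρ σ).val = M) →
    ∀ (P : Fin g → (W.baseChange F).toAffine.Point),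
    (∀ σ a, ∑ b, (ρ σ).val a b • gal σ (P b) = P a) →
    (Obstructed ρ M P c₂ ∧ ¬ LinearIndependent ℤ P) ∨
      ((∀ S : Finset (Ideal (𝓞 K)),
        (∀ p ∈ S, p.IsMaximal ∧ p ≠ ⊥ ∧ ¬ Algebra.IsUnramifiedIn (𝓞 F) p) →
        c₁ * ((∑ p ∈ S, Real.log (Ideal.absNorm p)) / Module.finrank ℚ K) ≤
          ntL M P + c₂ * (1 + hJ W)) ∧
      ((Obstructed ρ M P (c₂ * (1 + hJ W) ^ k) ∧ ¬ LinearIndependent ℤ P) ∨
        ((∀ n : ℕ, 1 ≤ n → n • P ≠ 0) ∧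
        c₁ * ((M.det : ℤ) : ℝ) ^ (1 / g : ℝ) * (1 + hJ W) ^ dexp g ≤ ntL M P))) := by
  obtain ⟨a₁, a₂, k, ha₁, ha₂, hA⟩ := power_form_d n hn g hg σ
  obtain ⟨e₁, e₂, he₁, he₂, hT2⟩ := uniform_lower_bound_abs g hg
  obtain ⟨σ₁, hσ₁⟩ : ∃ σ₁, σ₁ = max σ 1 := ⟨_, rfl⟩
  have hσ1 : 1 ≤ σ₁ := by rw [hσ₁]; exact le_max_right _ _
  have hσσ : σ ≤ σ₁ := by rw [hσ₁]; exact le_max_left _ _
  obtain ⟨c₂, hc₂⟩ : ∃ c₂, c₂ = max a₂ (e₂ * (1 + σ₁)) := ⟨_, rfl⟩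
  have hc₂a : a₂ ≤ c₂ := by rw [hc₂]; exact le_max_left _ _
  have hc₂e : e₂ * (1 + σ₁) ≤ c₂ := by rw [hc₂]; exact le_max_right _ _
  have hc₂0 : 0 < c₂ := lt_of_lt_of_le ha₂ hc₂a
  have hc₂e' : e₂ ≤ c₂ := by
    have : 0 ≤ e₂ * σ₁ := by positivity
    linarith
  refine ⟨min a₁ e₁, c₂, k, lt_min ha₁ he₁, hc₂0, ?_⟩
  intro K _ _ hKn W _ hWh F _ _ _ _ _ ρ hρ M hM hinv P hP
  have hJn := hJ_nonneg W
  rcases hT2 K W F ρ hρ M hM hinv P hP with h3 | h3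
  · exact Or.inl ⟨h3.mono hM hc₂e', obstructed_not_li h3⟩
  refine Or.inr ⟨fun S hS => ?_, ?_⟩
  · have h4 := h3 S hS
    have hR0 : 0 ≤ (∑ p ∈ S, Real.log (Ideal.absNorm p)) / Module.finrank ℚ K :=
      div_nonneg (Finset.sum_nonneg fun p _ => Real.log_natCast_nonneg _) (Nat.cast_nonneg _)
    have h5 := mul_le_mul_of_nonneg_right (min_le_right a₁ e₁) hR0
    have h6 : hW W ≤ σ₁ * (1 + hJ W) :=
      hWh.trans (mul_le_mul_of_nonneg_right hσσ (by linarith))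
    have h7 : e₂ * (1 + hW W) ≤ c₂ * (1 + hJ W) := by
      calc e₂ * (1 + hW W) ≤ e₂ * ((1 + σ₁) * (1 + hJ W)) :=
            mul_le_mul_of_nonneg_left (by linarith) he₂.le
        _ = e₂ * (1 + σ₁) * (1 + hJ W) := by ring
        _ ≤ _ := mul_le_mul_of_nonneg_right hc₂e (by linarith)
    linarith
  rcases hA K hKn W hWh F ρ hρ M hM hinv P hP with ⟨h1, h1'⟩ | ⟨h1, h2, _⟩
  · exact Or.inl ⟨h1.mono hM (mul_le_mul_of_nonneg_right hc₂a (pow_nonneg (by linarith) _)), h1'⟩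
  refine Or.inr ⟨h1, le_trans ?_ h2⟩
  have hdet : 0 ≤ ((M.det : ℤ) : ℝ) ^ (1 / g : ℝ) := by
    refine Real.rpow_nonneg ?_ _
    have h5 : (1 : ℝ) ≤ ((M.det : ℤ) : ℝ) := by exact_mod_cast det_ge_one M hM
    linarith
  have hh : 0 ≤ (1 + hJ W) ^ dexp g := Real.rpow_nonneg (by linarith) _
  exact mul_le_mul_of_nonneg_right (mul_le_mul_of_nonneg_right (min_le_left _ _) hdet) hh

/-- Lower bound for the Gram determinant in terms of a lower bound for all combinations. -/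
theorem reg_lin {g : ℕ} (hg : 1 ≤ g) {X : Type} [AddCommGroup X] (q : X → ℝ)
    (hpar : ∀ P Q, q (P + Q) + q (P - Q) = 2 * q P + 2 * q Q) (hq : ∀ P, 0 ≤ q P)
    (Q : Fin g → X) (hQ : LinearIndependent ℤ Q) (x B : ℝ)
    (hB : B = 256 * g * 2 ^ (2 / g : ℝ)) (hpt : ∀ ℓ : Fin g → ℤ, ℓ ≠ 0 → x ≤ q (Phi Q ℓ)) :
    x ≤ B * (gramX q Q).det ^ (1 / g : ℝ) := by
  have h1 := reg_step hg q hpar hq Q hQ 2 x (by norm_num)
    fun S hS hS2 => by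
      have h2 : 1 < S.card := by
        have h3 : (2 : ℝ) ≤ S.card := hS
        have h4 : 2 ≤ S.card := by exact_mod_cast h3
        omega
      obtain ⟨x, hx, y, hy, hxy⟩ := Finset.one_lt_card.1 h2
      obtain ⟨ℓ, rfl⟩ := hS2 x hx
      obtain ⟨ℓ', rfl⟩ := hS2 y hy
      refine ⟨_, hx, _, hy, hxy, ?_⟩
      rw [← Phi_sub]
      refine hpt _ ?_
      intro h0
      apply hxy
      rw [sub_eq_zero.1 h0]
  rw [← hB] at h1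
  exact h1

/-- The linear bound in an abstract group. -/
theorem reg_lin2 {g : ℕ} (hg : 1 ≤ g) {X : Type} [AddCommGroup X] (q : X → ℝ)
    (hpar : ∀ P Q, q (P + Q) + q (P - Q) = 2 * q P + 2 * q Q) (hq : ∀ P, 0 ≤ q P)
    (Q : Fin g → X) (hQ : LinearIndependent ℤ Q) (c₁ e A B h R : ℝ)
    (hB : B = 256 * g * 2 ^ (2 / g : ℝ)) (hc₁ : 0 ≤ c₁) (hce : c₁ ≤ e / B) (hA : 0 ≤ A)
    (hh : 0 ≤ h) (hR0 : 0 ≤ R) (hpt : A * h ≤ R → ∀ ℓ : Fin g → ℤ, ℓ ≠ 0 → e * R ≤ q (Phi Q ℓ)) :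
    c₁ * R ≤ (gramX q Q).det ^ (1 / g : ℝ) + c₁ * A * h := by
  have hg0 : (0 : ℝ) < g := by exact_mod_cast hg
  have hB0 : 0 < B := by rw [hB]; positivity
  obtain ⟨Δ, hΔ⟩ : ∃ Δ : ℝ, Δ = (gramX q Q).det := ⟨_, rfl⟩
  have hΔ0 : 0 ≤ Δ := by rw [hΔ]; exact (gramX_psd q hpar hq Q).det_nonneg
  have hroot : 0 ≤ Δ ^ (1 / g : ℝ) := Real.rpow_nonneg hΔ0 _
  rw [← hΔ]
  rcases le_total R (A * h) with hRA | hRA
  · have h2 := mul_le_mul_of_nonneg_left hRA hc₁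
    linarith
  have h5 := reg_lin hg q hpar hq Q hQ (e * R) B hB (hpt hRA)
  rw [← hΔ] at h5
  have h6 : c₁ * R ≤ Δ ^ (1 / g : ℝ) := by
    calc c₁ * R ≤ e / B * R := mul_le_mul_of_nonneg_right hce hR0
      _ = e * R / B := by ring
      _ ≤ B * Δ ^ (1 / g : ℝ) / B := div_le_div_of_nonneg_right h5 hB0.le
      _ = _ := mul_div_cancel_left₀ _ hB0.ne'
  have h7 : 0 ≤ c₁ * A * h := by positivity
  linarith

/-- Lower bound for the Gram determinant; the bound in terms of the ramified primes is linear. -/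
theorem gram_form_r (n : ℕ) (hn : 1 ≤ n) (g : ℕ) (hg : 1 ≤ g) (σ : ℝ) :
    ∃ c₁ c₂ : ℝ, 0 < c₁ ∧ 0 < c₂ ∧ ∀ (K : Type) [Field K] [NumberField K],
    Module.finrank ℚ K ≤ n → ∀ (W : WeierstrassCurve K) [W.IsElliptic],
    hW W ≤ σ * (1 + hJ W) →
    ∀ (F : Type) [Field F] [NumberField F] [DecidableEq F] [Algebra K F] [IsGalois K F]
    (ρ : (F ≃ₐ[K] F) →* Matrix.GeneralLinearGroup (Fin g) ℤ), Function.Injective ρ →
    ∀ (P : Fin g → (W.baseChange F).toAffine.Point), LinearIndependent ℤ P → IsKPoint ρ P →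
      c₁ * (1 + hJ W) ^ (dexp g * g) ≤ (gramX nt P).det ∧
      ((∀ s, (ρ s).val = 1 ∨ (ρ s).val = -1) → ∀ S : Finset (Ideal (𝓞 K)),
        (∀ p ∈ S, p.IsMaximal ∧ p ≠ ⊥ ∧ ¬ Algebra.IsUnramifiedIn (𝓞 F) p) →
        c₁ * ((∑ p ∈ S, Real.log (Ideal.absNorm p)) / Module.finrank ℚ K) ≤
          (gramX nt P).det ^ (1 / g : ℝ) + c₂ * (1 + hJ W)) := by
  obtain ⟨a₁, ha₁, hA⟩ := gram_form_d n hn g hg σ
  obtain ⟨e₁, e₂, he₁, he₂, hT2⟩ := uniform_lower_bound_abs 1 le_rfl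
  obtain ⟨σ₁, hσ₁⟩ : ∃ σ₁, σ₁ = max σ 1 := ⟨_, rfl⟩
  have hσ1 : 1 ≤ σ₁ := by rw [hσ₁]; exact le_max_right _ _
  have hσσ : σ ≤ σ₁ := by rw [hσ₁]; exact le_max_left _ _
  obtain ⟨A, hA1, hAR⟩ := big_R e₁ e₂ σ₁ he₁ he₂ (by linarith)
  obtain ⟨B, hB⟩ : ∃ B : ℝ, B = 256 * g * 2 ^ (2 / g : ℝ) := ⟨_, rfl⟩
  have hg0 : (0 : ℝ) < g := by exact_mod_cast hg
  have hB0 : 0 < B := by rw [hB]; positivity
  obtain ⟨c₁, hc₁⟩ : ∃ c₁, c₁ = min a₁ (e₁ / 2 / B) := ⟨_, rfl⟩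
  have hc₁0 : 0 < c₁ := by rw [hc₁]; exact lt_min ha₁ (by positivity)
  have hc₁a : c₁ ≤ a₁ := by rw [hc₁]; exact min_le_left _ _
  have hc₁e : c₁ ≤ e₁ / 2 / B := by rw [hc₁]; exact min_le_right _ _
  refine ⟨c₁, c₁ * A, hc₁0, by positivity, ?_⟩
  intro K _ _ hKn W _ hWh F _ _ _ _ _ ρ hρ P hP hK
  have hJn := hJ_nonneg W
  have hh1 : 1 ≤ 1 + hJ W := by linarith
  refine ⟨le_trans (mul_le_mul_of_nonneg_right hc₁a (Real.rpow_nonneg (by linarith) _))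
    (hA K hKn W hWh F ρ hρ P hP hK).1, ?_⟩
  intro hsc S hS
  obtain ⟨R, hR⟩ : ∃ R : ℝ, R = (∑ p ∈ S, Real.log (Ideal.absNorm p)) / Module.finrank ℚ K :=
    ⟨_, rfl⟩
  have hR0 : 0 ≤ R := by
    rw [hR]
    exact div_nonneg (Finset.sum_nonneg fun p _ => Real.log_natCast_nonneg _) (Nat.cast_nonneg _)
  rw [← hR]
  obtain ⟨ρ₁, hρ₁, hval⟩ := exists_chi hg ρ hρ hsc
  have hK1 := kp_scalar ρ ρ₁ hval gal P hK
  have h9 : hW W ≤ σ₁ * (1 + hJ W) :=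
    hWh.trans (mul_le_mul_of_nonneg_right hσσ (by linarith))
  have hpt : A * (1 + hJ W) ≤ R → ∀ ℓ : Fin g → ℤ, ℓ ≠ 0 → e₁ / 2 * R ≤ nt (Phi P ℓ) := by
    intro hRA ℓ hℓ
    have hKx := kp_phi ρ₁ gal P hK1 ℓ
    rcases hT2 K W F ρ₁ hρ₁ 1 isPol_one (fun s => gl_one (ρ₁ s)) (fun _ => Phi P ℓ) hKx with
      h3 | h3
    · exact absurd (li_phi hP hℓ) (obstructed_not_li h3)
    have h4 := h3 S hS
    rw [ntL_one, ← hR] at h4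
    exact hAR (1 + hJ W) R _ (hW W) hh1 h9 h4 hRA
  exact reg_lin2 hg (X := (W.baseChange F).toAffine.Point) nt nt_par nt_nonneg P hP c₁ (e₁ / 2) A B
    (1 + hJ W) R hB hc₁0.le hc₁e (by linarith) (by linarith) hR0 hpt

end Pow

end LangForms
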