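import Pool.Agent.Lib_MP_f5471b_p.PairsP
import Pool.Agent.Lib_MP_f5471b_q.SepAbs

/-!
# MP_f5471b_nt: differences of large canonical height, with polynomial dependence on the data
-/

namespace LangForms

open Height NumberField WeierstrassCurve Topology Filter

namespace Pow

theorem sepP_abs (d : ℕ) : ∃ C c : ℝ, 1 ≤ C ∧ 0 < c ∧
    ∀ (F : Type) [Field F] [NumberField F], Module.finrank ℚ F ≤ d →
    ∀ t : F, t ≠ 0 → 1 + 1728 * t ≠ 0 → ∀ (s : ℕ) (σ : ℝ), 1 ≤ s → 1 ≤ σ → TCond t s σ →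
    C * (σ ^ 2 * s) ≤ logHeight₁ t →
    ∀ (X : Type) [AddCommGroup X] (ξ : X → Fin 2 → F), XMap t ξ →
    ∀ q : X → ℝ,
    (∀ Q : X, Tendsto (fun n : ℕ => logHeight (ξ ((2 ^ n) • Q)) / 4 ^ n) atTop (𝓝 (q Q))) →
      Sp q (C * σ ^ 2) (c * (logHeight₁ t / σ ^ 2)) ∨
      ((∀ β : ℝ, 0 ≤ β → β ^ 3 * (σ ^ 2 * s) ^ 2 ≤ c * logHeight₁ t ^ 3 →
          Sp q (C * (σ ^ 2 * s)) β) ∧
        ∀ m β : ℝ, 0 ≤ m → 0 ≤ β → C * (σ ^ 2 * s) ^ 3 ≤ m ^ 2 →
          β ^ 2 * (σ ^ 2 * s) ≤ c * logHeight₁ t ^ 2 → Sp q m β) := by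
  classical
  obtain ⟨ε₁, c₁, hε₁, hε₁', hc₁, hdup⟩ := dup_gen
  obtain ⟨ε₂, c₂, hε₂, hε₂', hc₂, hadd⟩ := add_gen
  obtain ⟨ε, hεdef⟩ : ∃ ε, ε = min ε₁ ε₂ := ⟨_, rfl⟩
  obtain ⟨c₀, hc₀def⟩ : ∃ c₀, c₀ = max c₁ c₂ := ⟨_, rfl⟩
  have hε : 0 < ε := by rw [hεdef]; exact lt_min hε₁ hε₂
  have hε' : ε < 1 := by rw [hεdef]; exact lt_of_le_of_lt (min_le_left _ _) hε₁'
  have hc₀ : 0 ≤ c₀ := by rw [hc₀def]; exact hc₁.trans (le_max_left _ _)
  have hdup' : ∀ (F : Type) [Field F] (v : AbsoluteValue F ℝ) (t : F), 0 < v t → v t ≤ ε →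
      DupLow v t c₀ ∧ DupRho v t c₀ := by
    intro F _ v t h1 h2
    have h3 := hdup F v t h1 (h2.trans (by rw [hεdef]; exact min_le_left _ _))
    have h4 : c₁ ≤ c₀ := by rw [hc₀def]; exact le_max_left _ _
    exact ⟨LSAux.DupLow.mono h4 h3.1, LSAux.DupRho.mono h4 h3.2⟩
  have hadd' : ∀ (F : Type) [Field F] (v : AbsoluteValue F ℝ) (t : F), 0 < v t → v t ≤ ε →
      AddRho v t c₀ := by
    intro F _ v t h1 h2
    exact LSAux.AddRho.mono (by rw [hc₀def]; exact le_max_right _ _)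
      (hadd F v t h1 (h2.trans (by rw [hεdef]; exact min_le_right _ _)))
  obtain ⟨C₁, hC₁, hcl⟩ := can_lower d ε c₀ hε hε' hc₀ hdup'
  obtain ⟨E, hE⟩ : ∃ E : ℝ, E = 3 * c₀ * d + C₁ := ⟨_, rfl⟩
  have hE0 : 0 ≤ E := by rw [hE]; positivity
  obtain ⟨dε, hdε⟩ : ∃ dε : ℝ, dε = d * -Real.log ε := ⟨_, rfl⟩
  have hlogε : 0 ≤ -Real.log ε := by
    rw [neg_nonneg]; exact Real.log_nonpos hε.le hε'.le
  have hdε0 : 0 ≤ dε := by rw [hdε]; positivity
  obtain ⟨B, hB⟩ : ∃ B : ℝ, B = 42 ^ d := ⟨_, rfl⟩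
  have hB1 : 1 ≤ B := by rw [hB]; exact one_le_pow₀ (by norm_num)
  obtain ⟨C, hC⟩ : ∃ C : ℝ, C = max (max (2 * (1 + dε)) (23040 * E))
      (B ^ 2 * 16200 ^ 3) := ⟨_, rfl⟩
  have hCd : 2 * (1 + dε) ≤ C := by
    rw [hC]; exact (le_max_left _ _).trans (le_max_left _ _)
  have hCE : 23040 * E ≤ C := by
    rw [hC]; exact (le_max_right _ _).trans (le_max_left _ _)
  have hCB2 : B ^ 2 * 16200 ^ 3 ≤ C := by rw [hC]; exact le_max_right _ _
  have hCB : 2520 * B ≤ C := by nlinarith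
  obtain ⟨c, hc⟩ : ∃ c : ℝ, c = 1 / (8 * (600 ^ 2 * 1296)) := ⟨_, rfl⟩
  refine ⟨C, c, by linarith, by rw [hc]; norm_num, ?_⟩
  intro F _ _ hFd t ht hκ s σ hs hσ hT hH X _ ξ hξ q hlim
  obtain ⟨H, hHd⟩ : ∃ H, H = logHeight₁ t := ⟨_, rfl⟩
  obtain ⟨Z, hZ⟩ : ∃ Z : ℝ, Z = σ ^ 2 * s := ⟨_, rfl⟩
  have hs1 : (1 : ℝ) ≤ s := by exact_mod_cast hs
  have hσ0 : 0 < σ := by linarith
  have hσσ : σ ≤ σ ^ 2 := by nlinarith
  have hσZ : σ ^ 2 ≤ Z := by rw [hZ]; exact le_mul_of_one_le_right (by positivity) hs1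
  have hZ1 : 1 ≤ Z := by nlinarith
  have hZ0 : 0 < Z := by linarith
  rw [← hHd, ← hZ] at hH ⊢
  have hC0 : 0 < C := by linarith
  have hCZH : C * Z ≤ H := hH
  have hCσH : C * σ ^ 2 ≤ H := (mul_le_mul_of_nonneg_left hσZ hC0.le).trans hCZH
  have hCσ1H : C * σ ≤ H := (mul_le_mul_of_nonneg_left hσσ hC0.le).trans hCσH
  have hH0 : 0 < H := lt_of_lt_of_le (by positivity) hCZH
  have hvt : ∀ v : FinitePlace F, 0 < v t := fun v => by
    rw [FinitePlace.pos_iff]; exact ht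
  have hvi : ∀ v : InfinitePlace F, 0 < v t := fun v => by
    rw [InfinitePlace.pos_iff]; exact ht
  obtain ⟨T, Tf, hTs, hTTf, hTf, hcond⟩ := hT
  have hh := logHeight₁_eq_Lt t ht Tf hTf
  rw [← hHd] at hh hcond
  obtain ⟨W, hW⟩ : ∃ W, W = ∑ v ∈ Tf, Lt v.1 t := ⟨_, rfl⟩
  have hCirc : ∀ v ∈ Tf, Circ (Lt v.1 t) fun Q => rho v.1 t (ξ Q) := fun v hv =>
    circ_fin hξ v (hvt v) ((hTf v).1 hv)
  have hW0 : 0 ≤ W := by
    rw [hW]; exact Finset.sum_nonneg fun v hv => (hCirc v hv).pos.le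
  -- the infinite places
  obtain ⟨I, hI⟩ : ∃ I : Finset (InfinitePlace F), I = Finset.univ.filter fun v => v t ≤ ε :=
    ⟨_, rfl⟩
  have hIv : ∀ v ∈ I, v t ≤ ε := fun v hv => by
    rw [hI, Finset.mem_filter] at hv; exact hv.2
  have hLi : ∀ v ∈ I, 0 < Lt v.1 t := fun v hv =>
    neg_pos.2 (Real.log_neg (hvi v) (lt_of_le_of_lt (hIv v hv) hε'))
  obtain ⟨WI, hWI⟩ : ∃ WI, WI = ∑ v ∈ I, (v.mult : ℝ) * Lt v.1 t := ⟨_, rfl⟩
  have hWI0 : 0 ≤ WI := by
    rw [hWI]; exact Finset.sum_nonneg fun v hv => mul_nonneg (Nat.cast_nonneg _) (hLi v hv).le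
  have hmult : ∑ v ∈ I, (v.mult : ℝ) ≤ d := by
    have h1 : ∑ v ∈ I, (v.mult : ℝ) ≤ ∑ v : InfinitePlace F, (v.mult : ℝ) :=
      Finset.sum_le_univ_sum_of_nonneg fun v => Nat.cast_nonneg _
    have h2 : ∑ v : InfinitePlace F, (v.mult : ℝ) = Module.finrank ℚ F := by
      exact_mod_cast InfinitePlace.sum_mult_eq
    have h3 : (Module.finrank ℚ F : ℝ) ≤ d := by exact_mod_cast hFd
    linarith
  have hA : ∑ v : InfinitePlace F, v.mult * Real.posLog (v t)⁻¹ ≤ WI + dε := by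
    have h1 : ∀ v : InfinitePlace F, (v.mult : ℝ) * Real.posLog (v t)⁻¹ ≤
        (if v t ≤ ε then (v.mult : ℝ) * Lt v.1 t else 0) + v.mult * -Real.log ε := by
      intro v
      have hm0 : (0 : ℝ) ≤ v.mult := Nat.cast_nonneg _
      split_ifs with h
      · have h2 : Real.posLog (v t)⁻¹ = Lt v.1 t := by
          rw [Real.posLog_eq_log]
          · rw [Real.log_inv]; rfl
          · rw [abs_of_pos (inv_pos.2 (hvi v))]
            exact (one_le_inv₀ (hvi v)).2 (h.trans hε'.le)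
        rw [h2]
        have := mul_nonneg hm0 hlogε
        linarith
      · rw [zero_add]
        refine mul_le_mul_of_nonneg_left ?_ hm0
        push Not at h
        rw [Real.posLog]
        refine max_le hlogε ?_
        rw [Real.log_inv]
        exact neg_le_neg (Real.log_le_log hε h.le)
    refine (Finset.sum_le_sum fun v _ => h1 v).trans ?_
    rw [Finset.sum_add_distrib, hWI, hI, Finset.sum_filter, ← Finset.sum_mul]
    have h2 : ∑ v : InfinitePlace F, (v.mult : ℝ) = Module.finrank ℚ F := by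
      exact_mod_cast InfinitePlace.sum_mult_eq
    have h3 : (Module.finrank ℚ F : ℝ) ≤ d := by exact_mod_cast hFd
    rw [h2, hdε]
    have := mul_le_mul_of_nonneg_right h3 hlogε
    linarith
  rw [← hW] at hh
  have hWH : W ≤ H := by
    have : 0 ≤ ∑ v : InfinitePlace F, v.mult * Real.posLog (v t)⁻¹ :=
      Finset.sum_nonneg fun v _ => mul_nonneg (Nat.cast_nonneg _) Real.posLog_nonneg
    linarith
  -- the lower bound for differences
  obtain ⟨bs, hbs⟩ : ∃ bs : X → ℝ, bs = bsum Tf (fun v => Lt v.1 t)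
    (fun v Q => rho v.1 t (ξ Q)) := ⟨_, rfl⟩
  have hlow : ∀ z : X, z ≠ 0 → (∀ v ∈ I, rho v.1 t (ξ z) ≤ Lt v.1 t / 20 + 3 * c₀) →
      bs z + WI / 10 - E ≤ q z := by
    intro z hz hzI
    have h1 := hcl F hFd t ht hκ X ξ hξ Tf hTf z (q z) hz (hlim z)
    have h2 : ∑ v ∈ Tf, phi v.1 t (ξ z) = bs z := by
      rw [hbs, bsum]
      refine Finset.sum_congr rfl fun v hv => ?_
      have hL := (hCirc v hv).pos
      simp only [phi, bv, bern]
      field_simp
    have h3 : WI / 10 - 3 * c₀ * d ≤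
        ∑ v : InfinitePlace F, (if v t ≤ ε then v.mult * phi v.1 t (ξ z) else 0) := by
      rw [← Finset.sum_filter, ← hI]
      have h4 : ∀ v ∈ I, (v.mult : ℝ) * (Lt v.1 t / 10) - v.mult * (3 * c₀) ≤
          v.mult * phi v.1 t (ξ z) := by
        intro v hv
        have h5 := hzI v hv
        have h6 := hLi v hv
        have h7 : 0 ≤ rho v.1 t (ξ z) ^ 2 / Lt v.1 t := by positivity
        have h8 : Lt v.1 t / 10 - 3 * c₀ ≤ phi v.1 t (ξ z) := by
          simp only [phi]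
          linarith
        have h9 := mul_le_mul_of_nonneg_left h8 (Nat.cast_nonneg (α := ℝ) v.mult)
        linarith
      refine le_trans ?_ (Finset.sum_le_sum h4)
      rw [Finset.sum_sub_distrib, ← Finset.sum_mul]
      have h5 : ∑ v ∈ I, (v.mult : ℝ) * (Lt v.1 t / 10) = WI / 10 := by
        rw [hWI, Finset.sum_div]
        exact Finset.sum_congr rfl fun v _ => by ring
      rw [h5]
      have h6 : (∑ v ∈ I, (v.mult : ℝ)) * (3 * c₀) ≤ d * (3 * c₀) :=
        mul_le_mul_of_nonneg_right hmult (by positivity)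
      linarith
    rw [h2] at h1
    rw [hE]
    linarith
  -- selection at the infinite places
  have hsel : ∀ S : Finset X, ∃ S' ⊆ S, (S.card : ℝ) ≤ B * S'.card ∧
      ∀ x ∈ S', ∀ y ∈ S', x ≠ y → bs (x - y) + WI / 10 - E ≤ q (x - y) := by
    intro S
    obtain ⟨S', hS', hcard, h1⟩ := arch_select I (fun v => Lt v.1 t) c₀ hc₀
      (fun v Q => rho v.1 t (ξ Q)) hLi
      (fun v hv Q => rho_nonneg v.1 t ((hIv v hv).trans hε'.le) _)
      (fun v hv Q => rho_le v.1 t (hvi v) _)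
      (fun v hv => ptRho_of hξ v.1 c₀ hc₀ (hvi v) (lt_of_le_of_lt (hIv v hv) hε')
        (hdup' F v.1 t (hvi v) (hIv v hv)).2 (hadd' F v.1 t (hvi v) (hIv v hv))) S
    refine ⟨S', hS', ?_, ?_⟩
    · have h2 : I.card ≤ d := by
        refine (Finset.card_le_univ I).trans ((LSAux.card_inf_le F).trans hFd)
      have h3 : (S.card : ℝ) ≤ 42 ^ I.card * S'.card := by exact_mod_cast hcard
      refine h3.trans ?_
      rw [hB]
      exact mul_le_mul_of_nonneg_right (pow_le_pow_right₀ (by norm_num) h2) (Nat.cast_nonneg _)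
    · intro x hx y hy hxy
      exact hlow _ (sub_ne_zero.2 hxy) fun v hv => h1 v hv x hx y hy
  -- lower bound for the cardinality of the selected set
  have hselc : ∀ (S S' : Finset X) (k y : ℝ), 0 ≤ y → k * B ≤ C → C * y ≤ S.card →
      (S.card : ℝ) ≤ B * S'.card → k * y ≤ S'.card := by
    intro S S' k y hy hk h1 h2
    have h3 : B * (k * y) ≤ B * S'.card := by
      calc B * (k * y) = k * B * y := by ring
        _ ≤ C * y := mul_le_mul_of_nonneg_right hk hy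
        _ ≤ S.card := h1
        _ ≤ _ := h2
    exact le_of_mul_le_mul_left h3 (by linarith)
  -- the radical
  obtain ⟨R, hR⟩ : ∃ R, R = ∑ v ∈ Tf, Real.log (plNorm v) := ⟨_, rfl⟩
  obtain ⟨Wt, hWt⟩ : ∃ Wt, Wt = ∑ v ∈ T, Lt v.1 t := ⟨_, rfl⟩
  rw [← hR, ← hWt] at hcond
  have hmain : H ≤ 2 * σ * (WI + Wt + R) := by
    have h1 : σ * (1 + ∑ v : InfinitePlace F, v.mult * Real.posLog (v t)⁻¹ + Wt + R) ≤
        σ * (1 + (WI + dε) + Wt + R) := mul_le_mul_of_nonneg_left (by linarith) hσ0.le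
    have h2 : 2 * (1 + dε) * σ ≤ C * σ := mul_le_mul_of_nonneg_right hCd hσ0.le
    nlinarith
  by_cases hcaseA : H ≤ 6 * σ * WI
  · -- the infinite places
    left
    intro S hS
    obtain ⟨S', hS', hcard, h1⟩ := hsel S
    have h2 : 41 * σ ^ 2 ≤ (S'.card : ℝ) :=
      hselc S S' 41 (σ ^ 2) (by positivity) (by linarith) hS hcard
    obtain ⟨x, hx, y, hy, hxy, h⟩ := pairP0 hCirc S' (40 * σ) (by linarith) (by nlinarith)
    refine ⟨x, hS' hx, y, hS' hy, hxy, ?_⟩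
    have h4 := h1 x hx y hy hxy
    rw [← hW, ← hbs] at h
    have h5 : W / (6 * (40 * σ)) ≤ H / (240 * σ) := by
      rw [show 6 * (40 * σ) = 240 * σ by ring]
      exact div_le_div_of_nonneg_right hWH (by positivity)
    have h6 : H / (60 * σ) ≤ WI / 10 := by
      rw [div_le_div_iff₀ (by positivity) (by norm_num)]
      linarith
    have h7 : E ≤ H / (160 * σ) := by
      rw [le_div_iff₀ (by positivity)]
      have : 23040 * E * σ ≤ C * σ := mul_le_mul_of_nonneg_right hCE hσ0.le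
      have h0 : 0 ≤ E * σ := by positivity
      linarith
    have e1 : H / (60 * σ) = 24 * (H / (1440 * σ)) := by field_simp; norm_num
    have e2 : H / (240 * σ) = 6 * (H / (1440 * σ)) := by field_simp; norm_num
    have e3 : H / (160 * σ) = 9 * (H / (1440 * σ)) := by field_simp; norm_num
    have h8 : c * (H / σ ^ 2) ≤ H / (1440 * σ) := by
      have h9 : H / σ ^ 2 ≤ H / σ := div_le_div_of_nonneg_left hH0.le hσ0 hσσ
      have e : H / (1440 * σ) = 1 / 1440 * (H / σ) := by field_simp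
      rw [e]
      refine mul_le_mul ?_ h9 (by positivity) (by norm_num)
      rw [hc]; norm_num
    have h10 : 0 ≤ H / (1440 * σ) := by positivity
    linarith
  push Not at hcaseA
  by_cases hcaseR : H ≤ 6 * σ * R
  · -- the radical
    left
    have hn : ∀ v ∈ Tf, ∃ n : ℕ, 1 ≤ n ∧ Lt v.1 t = n * Real.log (plNorm v) ∧
        ∀ x : X, ∃ a : ℕ, rho v.1 t (ξ x) / Lt v.1 t * (2 * n) = a := by
      intro v hv
      obtain ⟨n, a, hn1, hn2, _⟩ := rho_fin v t ht ((hTf v).1 hv) (ξ 0) (hξ.ne_zero 0)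
      refine ⟨n, hn1, hn2, fun x => ?_⟩
      obtain ⟨n', a', hn1', hn2', hn3'⟩ := rho_fin v t ht ((hTf v).1 hv) (ξ x) (hξ.ne_zero x)
      have hlp := log_plNorm_pos v
      refine ⟨a', ?_⟩
      have h5 : rho v.1 t (ξ x) = a' * Real.log (plNorm v) / 2 := by linarith
      have hnpos : (0 : ℝ) < n := by exact_mod_cast (by omega : 0 < n)
      rw [h5, hn2]
      field_simp
    choose! n hn1 hn2 hn3 using hn
    obtain ⟨N, hN⟩ : ∃ N : ℝ, N = 12 * σ := ⟨_, rfl⟩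
    have hN1 : 1 ≤ N := by linarith
    have hN0 : 0 < N := by linarith
    obtain ⟨T₁, hT₁⟩ : ∃ T₁, T₁ = Tf.filter fun v => (n v : ℝ) ≤ N := ⟨_, rfl⟩
    have hT₁s : T₁ ⊆ Tf := by rw [hT₁]; exact Finset.filter_subset _ _
    obtain ⟨R₁, hR₁⟩ : ∃ R₁, R₁ = ∑ v ∈ T₁, Real.log (plNorm v) := ⟨_, rfl⟩
    have hRR : R ≤ R₁ + W / N := by
      rw [hR, hR₁, hW, ← Finset.sum_sdiff hT₁s, add_comm]
      refine add_le_add le_rfl ?_
      have h1 : ∑ v ∈ Tf \ T₁, Real.log (plNorm v) ≤ ∑ v ∈ Tf \ T₁, Lt v.1 t / N := by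
        refine Finset.sum_le_sum fun v hv => ?_
        rw [Finset.mem_sdiff, hT₁, Finset.mem_filter] at hv
        have h2 : N < n v := by
          by_contra hle
          push Not at hle
          exact hv.2 ⟨hv.1, hle⟩
        rw [le_div_iff₀ hN0, hn2 v hv.1]
        have h3 := log_plNorm_pos v
        nlinarith
      refine h1.trans ?_
      rw [← Finset.sum_div]
      refine div_le_div_of_nonneg_right ?_ hN0.le
      refine Finset.sum_le_sum_of_subset_of_nonneg Finset.sdiff_subset fun v hv _ => ?_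
      exact (hCirc v hv).pos.le
    have hR₁low : H ≤ 12 * σ * R₁ := by
      have h1 : W / N ≤ H / N := div_le_div_of_nonneg_right hWH hN0.le
      have h2 : N * R ≤ N * (R₁ + H / N) := mul_le_mul_of_nonneg_left (by linarith) hN0.le
      have h3 : N * (R₁ + H / N) = N * R₁ + H := by field_simp
      rw [h3, hN] at h2
      linarith
    intro S hS
    obtain ⟨S', hS', hcard, h1⟩ := hsel S
    have h2 : 1920 * σ ^ 2 ≤ (S'.card : ℝ) :=
      hselc S S' 1920 (σ ^ 2) (by positivity) (by linarith) hS hcard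
    have h22 : (2 : ℝ) ≤ S'.card := by nlinarith
    obtain ⟨x, hx, y, hy, hxy, h⟩ := pairP1 hCirc T₁ hT₁s n (fun v => Real.log (plNorm v))
      (fun v hv => hn1 v (hT₁s hv)) (fun v hv => hn2 v (hT₁s hv)) N hN1
      (fun v hv => by rw [hT₁, Finset.mem_filter] at hv; exact hv.2)
      (fun v hv => hn3 v (hT₁s hv)) S' (by exact_mod_cast h22)
      (by
        rw [← hW, ← hR₁]
        have h3 : 0 < R₁ := by
          by_contra hle
          push Not at hle
          have : 12 * σ * R₁ ≤ 0 := mul_nonpos_of_nonneg_of_nonpos (by positivity) hle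
          linarith
        calc 40 * N * W ≤ 40 * N * H := mul_le_mul_of_nonneg_left hWH (by positivity)
          _ ≤ 40 * N * (12 * σ * R₁) := mul_le_mul_of_nonneg_left hR₁low (by positivity)
          _ = 3 * (1920 * σ ^ 2 * R₁) := by rw [hN]; ring
          _ ≤ 3 * (S'.card * R₁) := by
            have := mul_le_mul_of_nonneg_right h2 h3.le
            linarith)
    refine ⟨x, hS' hx, y, hS' hy, hxy, ?_⟩
    have h4 := h1 x hx y hy hxy
    rw [← hR₁, ← hbs] at h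
    have h5 : H / (11520 * σ ^ 2) ≤ R₁ / (80 * N) := by
      rw [div_le_div_iff₀ (by positivity) (by positivity), hN]
      have : H * (960 * σ) ≤ 12 * σ * R₁ * (960 * σ) :=
        mul_le_mul_of_nonneg_right hR₁low (by positivity)
      linarith
    have h6 : E ≤ H / (23040 * σ ^ 2) := by
      rw [le_div_iff₀ (by positivity)]
      have : 23040 * E * σ ^ 2 ≤ C * σ ^ 2 := mul_le_mul_of_nonneg_right hCE (by positivity)
      linarith
    have e1 : H / (11520 * σ ^ 2) = 2 * (H / (23040 * σ ^ 2)) := by field_simp; norm_num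
    have h8 : c * (H / σ ^ 2) ≤ H / (23040 * σ ^ 2) := by
      have e : H / (23040 * σ ^ 2) = 1 / 23040 * (H / σ ^ 2) := by field_simp
      rw [e]
      refine mul_le_mul_of_nonneg_right ?_ (by positivity)
      rw [hc]; norm_num
    linarith
  push Not at hcaseR
  -- the places in `T`
  right
  have hcaseT : H ≤ 6 * σ * Wt := by nlinarith
  obtain ⟨Q, hQ⟩ : ∃ Q, Q = ∑ v ∈ Tf, Lt v.1 t ^ 2 := ⟨_, rfl⟩
  have hWtW : Wt ≤ W := by
    rw [hWt, hW]
    exact Finset.sum_le_sum_of_subset_of_nonneg hTTf fun v hv _ => (hCirc v hv).pos.le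
  have hWt0 : 0 < Wt := by
    by_contra hle
    push Not at hle
    have : 6 * σ * Wt ≤ 0 := mul_nonpos_of_nonneg_of_nonpos (by positivity) hle
    linarith
  have hWp : 0 < W := by linarith
  have hQlow : H ^ 2 ≤ 36 * Z * Q := by
    have hQ0 : 0 ≤ Q := by rw [hQ]; exact Finset.sum_nonneg fun v _ => sq_nonneg _
    have h1 : Wt ^ 2 ≤ T.card * ∑ v ∈ T, Lt v.1 t ^ 2 := by
      rw [hWt]
      exact sq_sum_le_card_mul_sum_sq
    have h2 : ∑ v ∈ T, Lt v.1 t ^ 2 ≤ Q := by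
      rw [hQ]
      exact Finset.sum_le_sum_of_subset_of_nonneg hTTf fun v _ _ => sq_nonneg _
    have h3 : (T.card : ℝ) ≤ s := by exact_mod_cast hTs
    have h4 : Wt ^ 2 ≤ s * Q := by
      refine h1.trans ?_
      exact mul_le_mul h3 h2 (Finset.sum_nonneg fun v _ => sq_nonneg _) (by linarith)
    have h5 : H ^ 2 ≤ (6 * σ * Wt) ^ 2 := pow_le_pow_left₀ hH0.le hcaseT 2
    calc H ^ 2 ≤ 36 * σ ^ 2 * Wt ^ 2 := by linarith
      _ ≤ 36 * σ ^ 2 * (s * Q) := mul_le_mul_of_nonneg_left h4 (by positivity)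
      _ = 36 * Z * Q := by rw [hZ]; ring
  have hQp : 0 < Q := by
    by_contra hle
    push Not at hle
    have h1 : 36 * Z * Q ≤ 0 := mul_nonpos_of_nonneg_of_nonpos (by positivity) hle
    have h2 : 0 < H ^ 2 := by positivity
    linarith
  obtain ⟨κ, hκd⟩ : ∃ κ, κ = Q / W ^ 2 := ⟨_, rfl⟩
  have hκ0 : 0 < κ := by rw [hκd]; positivity
  have hκW : κ * W ^ 2 = Q := by rw [hκd]; field_simp
  have hκZ : 1 ≤ 36 * Z * κ := by
    rw [hκd, mul_div_assoc', le_div_iff₀ (by positivity), one_mul]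
    exact (pow_le_pow_left₀ hW0 hWH 2).trans hQlow
  refine ⟨?_, ?_⟩
  · intro β hβ hβ3 S hS
    obtain ⟨S', hS', hcard, h1⟩ := hsel S
    have h2 : 2520 * Z ≤ (S'.card : ℝ) := hselc S S' 2520 Z hZ0.le hCB hS hcard
    obtain ⟨x, hx, y, hy, hxy, h⟩ := pairP2 hCirc κ hκ0 (by rw [← hW]; exact hWp)
      (by rw [← hW, ← hQ, hκW]) S'
      (by
        have h3 : κ * (2520 * Z) ≤ κ * S'.card := mul_le_mul_of_nonneg_left h2 hκ0.le
        linarith) (β + E)
      (by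
        rw [← hW]
        have h3 : (β + E) ^ 3 ≤ 4 * (β ^ 3 + E ^ 3) := by
          nlinarith [mul_nonneg (add_nonneg hβ hE0) (sq_nonneg (β - E))]
        have h4 : (8 * (600 ^ 2 * 1296)) * (β ^ 3 * Z ^ 2) ≤ H ^ 3 := by
          rw [hc, div_mul_eq_mul_div, le_div_iff₀ (by norm_num)] at hβ3
          linarith
        have h5 : (8 * (600 ^ 2 * 1296)) * (E ^ 3 * Z ^ 2) ≤ H ^ 3 := by
          have a1 : (23040 * E) ^ 3 * Z ^ 2 ≤ C ^ 3 * Z ^ 3 := by
            have a2 : (23040 * E) ^ 3 ≤ C ^ 3 := pow_le_pow_left₀ (by positivity) hCE 3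
            have a3 : Z ^ 2 ≤ Z ^ 3 := pow_le_pow_right₀ hZ1 (by norm_num)
            exact mul_le_mul a2 a3 (by positivity) (by positivity)
          have a4 : (C * Z) ^ 3 ≤ H ^ 3 := pow_le_pow_left₀ (by positivity) hCZH 3
          have a5 : 0 ≤ E ^ 3 * Z ^ 2 := by positivity
          have a6 : (23040 * E) ^ 3 * Z ^ 2 = 23040 ^ 3 * (E ^ 3 * Z ^ 2) := by ring
          rw [mul_pow] at a4
          rw [a6] at a1
          linarith
        -- `Q ^ 2 ≤ κ ^ 2 W ^ 4`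
        have h6 : (β + E) ^ 3 * 600 ^ 2 * (1296 * Z ^ 2) ≤ H ^ 3 := by
          have a1 : (β + E) ^ 3 * (600 ^ 2 * 1296 * Z ^ 2) ≤
              4 * (β ^ 3 + E ^ 3) * (600 ^ 2 * 1296 * Z ^ 2) :=
            mul_le_mul_of_nonneg_right h3 (by positivity)
          linarith
        have h7 : H ^ 3 * W ≤ 1296 * Z ^ 2 * (κ ^ 2 * W ^ 3) * W := by
          calc H ^ 3 * W ≤ H ^ 3 * H := mul_le_mul_of_nonneg_left hWH (by positivity)
            _ = H ^ 2 * H ^ 2 := by ring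
            _ ≤ 36 * Z * Q * (36 * Z * Q) :=
              mul_le_mul hQlow hQlow (by positivity) (by positivity)
            _ = 1296 * Z ^ 2 * (κ ^ 2 * W ^ 3) * W := by rw [← hκW]; ring
        have h8 : H ^ 3 ≤ 1296 * Z ^ 2 * (κ ^ 2 * W ^ 3) := le_of_mul_le_mul_right h7 hWp
        have h9 : (1296 * Z ^ 2) * ((β + E) ^ 3 * 600 ^ 2) ≤
            (1296 * Z ^ 2) * (κ ^ 2 * W ^ 3) := by linarith
        exact le_of_mul_le_mul_left h9 (by positivity))
    refine ⟨x, hS' hx, y, hS' hy, hxy, ?_⟩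
    have h4 := h1 x hx y hy hxy
    rw [← hbs] at h
    linarith
  · intro m β hm hβ hm2 hβ2 S hS
    obtain ⟨S', hS', hcard, h1⟩ := hsel S
    have h2 : 16200 ^ 3 * Z ^ 3 ≤ (S'.card : ℝ) ^ 2 := by
      have h3 : m ^ 2 ≤ (B * S'.card) ^ 2 :=
        pow_le_pow_left₀ hm (hS.trans hcard) 2
      have h4 : B ^ 2 * 16200 ^ 3 * Z ^ 3 ≤ C * Z ^ 3 :=
        mul_le_mul_of_nonneg_right hCB2 (by positivity)
      have h5 : B ^ 2 * (16200 ^ 3 * Z ^ 3) ≤ B ^ 2 * (S'.card : ℝ) ^ 2 := by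
        rw [← mul_pow]
        linarith
      exact le_of_mul_le_mul_left h5 (by positivity)
    obtain ⟨x, hx, y, hy, hxy, h⟩ := pairP3 hCirc κ hκ0 (by rw [← hW]; exact hWp)
      (by rw [← hW, ← hQ, hκW]) S'
      (by
        have h3 : κ ^ 3 * (16200 ^ 3 * Z ^ 3) ≤ κ ^ 3 * (S'.card : ℝ) ^ 2 :=
          mul_le_mul_of_nonneg_left h2 (by positivity)
        have h4 : (1 : ℝ) ^ 3 ≤ (36 * Z * κ) ^ 3 := pow_le_pow_left₀ (by norm_num) hκZ 3
        have e : κ ^ 3 * (16200 ^ 3 * Z ^ 3) = 450 ^ 3 * (36 * Z * κ) ^ 3 := by ring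
        rw [e] at h3
        linarith) (β + E)
      (by
        rw [← hW]
        have h3 : (β + E) ^ 2 ≤ 2 * (β ^ 2 + E ^ 2) := by
          nlinarith [sq_nonneg (β - E)]
        have h4 : 64800 * (β ^ 2 * Z) ≤ H ^ 2 := by
          have a1 : c * H ^ 2 ≤ 1 / 64800 * H ^ 2 :=
            mul_le_mul_of_nonneg_right (by rw [hc]; norm_num) (by positivity)
          linarith
        have h5 : 64800 * (E ^ 2 * Z) ≤ H ^ 2 := by
          have a1 : (23040 * E) ^ 2 * Z ≤ C ^ 2 * Z ^ 2 := by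
            have a2 : (23040 * E) ^ 2 ≤ C ^ 2 := pow_le_pow_left₀ (by positivity) hCE 2
            have a3 : Z ≤ Z ^ 2 := by nlinarith
            exact mul_le_mul a2 a3 (by positivity) (by positivity)
          have a4 : (C * Z) ^ 2 ≤ H ^ 2 := pow_le_pow_left₀ (by positivity) hCZH 2
          have a5 : 0 ≤ E ^ 2 * Z := by positivity
          have a6 : (23040 * E) ^ 2 * Z = 23040 ^ 2 * (E ^ 2 * Z) := by ring
          rw [mul_pow] at a4
          rw [a6] at a1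
          linarith
        have h6 : (β + E) ^ 2 * (16200 * Z) ≤ 2 * (β ^ 2 + E ^ 2) * (16200 * Z) :=
          mul_le_mul_of_nonneg_right h3 (by positivity)
        have h7 : (36 * Z) * ((β + E) ^ 2 * 450) ≤ (36 * Z) * (κ * W ^ 2) := by
          rw [hκW]
          linarith
        exact le_of_mul_le_mul_left h7 (by positivity))
    refine ⟨x, hS' hx, y, hS' hy, hxy, ?_⟩
    have h4 := h1 x hx y hy hxy
    rw [← hbs] at h
    linarith

end Pow

end LangForms
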