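import Pool.Agent.Lib_MP_f5471b_p.SepP
import Pool.Agent.Lib_MP_f5471b_p.SepWd

/-!
# MP_f5471b_nt: differences of large canonical height, polynomial form, for elliptic curves
-/

namespace LangForms

open Height NumberField WeierstrassCurve Topology Filter

namespace Pow

theorem sepP_W (n : ℕ) (hn1 : 1 ≤ n) (D : ℕ) (hD : 1 ≤ D) (τ : ℝ) :
    ∃ C c : ℝ, 1 ≤ C ∧ 0 < c ∧ ∀ (K : Type) [Field K] [NumberField K],
    Module.finrank ℚ K ≤ n → ∀ (W : WeierstrassCurve K) [W.IsElliptic],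
    hW W ≤ τ * (1 + hJ W) → ∀ (s : ℕ) (σ : ℝ), 1 ≤ s → 1 ≤ σ → JCond W.j s σ →
    ∀ (F : Type) [Field F] [NumberField F] [DecidableEq F] [Algebra K F],
      Module.finrank K F ≤ D →
      Sp (nt (W := W.baseChange F)) (C * σ ^ 2) (c * ((1 + hJ W) / σ ^ 2)) ∨
      ((∀ β : ℝ, 0 ≤ β → β ^ 3 * (σ ^ 2 * s) ^ 2 ≤ c * (1 + hJ W) ^ 3 →
          Sp (nt (W := W.baseChange F)) (C * (σ ^ 2 * s)) β) ∧
        ∀ m β : ℝ, 0 ≤ m → 0 ≤ β → C * (σ ^ 2 * s) ^ 3 ≤ m ^ 2 →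
          β ^ 2 * (σ ^ 2 * s) ≤ c * (1 + hJ W) ^ 2 →
            Sp (nt (W := W.baseChange F)) m β) := by
  classical
  obtain ⟨d, hd⟩ : ∃ d : ℕ, d = n * D := ⟨_, rfl⟩
  have hd1 : 1 ≤ d := by rw [hd]; exact Nat.mul_pos (by omega) (by omega)
  have hdpos : (0 : ℝ) < d := by exact_mod_cast (by omega : 0 < d)
  have hd1' : (1 : ℝ) ≤ d := by exact_mod_cast hd1
  have hD1' : (1 : ℝ) ≤ D := by exact_mod_cast hD
  obtain ⟨C₂, hC₂, htc⟩ := tcond_of_jcond
  obtain ⟨C₃, hC₃, hcomp⟩ := logHeight₁_t_comp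
  obtain ⟨C₀, c₀, hC₀, hc₀, hls⟩ := sepP_abs d
  obtain ⟨μ, hμ⟩ : ∃ μ : ℝ, μ = max 1 (2 * C₂ * d * D) := ⟨_, rfl⟩
  have hμ1 : 1 ≤ μ := by rw [hμ]; exact le_max_left _ _
  have hμ2 : 2 * C₂ * d * D ≤ μ := by rw [hμ]; exact le_max_right _ _
  obtain ⟨lam, hlam⟩ : ∃ lam : ℝ, lam = μ ^ 2 * D := ⟨_, rfl⟩
  have hμsq : 1 ≤ μ ^ 2 := one_le_pow₀ hμ1
  have hlam1 : μ ^ 2 ≤ lam := by rw [hlam]; exact le_mul_of_one_le_right (by positivity) hD1'
  have hlam0 : 1 ≤ lam := hμsq.trans hlam1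
  -- the threshold
  obtain ⟨A, hA⟩ : ∃ A : ℝ, A = max (max (2 * C₃ + 2) (4 * (C₀ * lam)))
      (1 + Real.log 1728) := ⟨_, rfl⟩
  have hA1 : 2 * C₃ + 2 ≤ A := by rw [hA]; exact (le_max_left _ _).trans (le_max_left _ _)
  have hA2 : 4 * (C₀ * lam) ≤ A := by rw [hA]; exact (le_max_right _ _).trans (le_max_left _ _)
  have hA4 : 1 + Real.log 1728 ≤ A := by
    rw [hA]; exact le_max_right _ _
  have hA0 : 1 ≤ A := by linarith
  obtain ⟨C', hC', hsepW⟩ := sep_Wd n hn1 D hD τ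
  obtain ⟨C₁, c₁, hC₁, hc₁, hsmall⟩ := hsepW C'
  obtain ⟨C, hC⟩ : ∃ C : ℝ, C = max (C₁ * A ^ 3) (C₀ * lam ^ 3) := ⟨_, rfl⟩
  have hCa : C₁ * A ^ 3 ≤ C := by rw [hC]; exact le_max_left _ _
  have hCb : C₀ * lam ^ 3 ≤ C := by rw [hC]; exact le_max_right _ _
  have hA31 : A ≤ A ^ 3 := le_self_pow₀ hA0 (by norm_num)
  have hA30 : 1 ≤ A ^ 3 := one_le_pow₀ hA0
  have hlam3 : lam ≤ lam ^ 3 := le_self_pow₀ hlam0 (by norm_num)
  have hlam2 : lam ≤ lam ^ 2 := le_self_pow₀ hlam0 (by norm_num)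
  have hCa1 : C₁ * A ≤ C := (mul_le_mul_of_nonneg_left hA31 (by linarith)).trans hCa
  have hCa0 : C₁ ≤ C := by
    refine le_trans ?_ hCa1
    exact le_mul_of_one_le_right (by linarith) hA0
  have hCb1 : C₀ * lam ≤ C := (mul_le_mul_of_nonneg_left hlam3 (by linarith)).trans hCb
  have hCb2 : C₀ * μ ^ 2 ≤ C := (mul_le_mul_of_nonneg_left hlam1 (by linarith)).trans hCb1
  have hC1 : 1 ≤ C := hC₁.trans hCa0
  obtain ⟨c, hc⟩ : ∃ c : ℝ, c = min (c₁ / A ^ 2) (c₀ / (512 * d ^ 3 * lam ^ 2)) := ⟨_, rfl⟩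
  have hcpos : 0 < c := by rw [hc]; exact lt_min (by positivity) (by positivity)
  have hca : c ≤ c₁ / A ^ 2 := by rw [hc]; exact min_le_left _ _
  have hcb : c ≤ c₀ / (512 * d ^ 3 * lam ^ 2) := by rw [hc]; exact min_le_right _ _
  have hca2 : c * A ^ 2 ≤ c₁ := by rwa [le_div_iff₀ (by positivity)] at hca
  have hA21 : A ≤ A ^ 2 := le_self_pow₀ hA0 (by norm_num)
  have hca1 : c * A ≤ c₁ := (mul_le_mul_of_nonneg_left hA21 hcpos.le).trans hca2
  have hca0 : c ≤ c₁ := (le_mul_of_one_le_right hcpos.le hA0).trans hca1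
  have hcb2 : c * (512 * d ^ 3 * lam ^ 2) ≤ c₀ := by rwa [le_div_iff₀ (by positivity)] at hcb
  have hd3 : (d : ℝ) ≤ d ^ 3 := le_self_pow₀ hd1' (by norm_num)
  have hd23 : (d : ℝ) ^ 2 ≤ d ^ 3 := pow_le_pow_right₀ hd1' (by norm_num)
  refine ⟨C, c, hC1, hcpos, ?_⟩
  intro K _ _ hKn W _ hWh s σ hs hσ hjc F _ _ _ _ hF
  have hjn := hJ_nonneg W
  obtain ⟨h, hh⟩ : ∃ h : ℝ, h = 1 + hJ W := ⟨_, rfl⟩
  obtain ⟨Z, hZ⟩ : ∃ Z : ℝ, Z = σ ^ 2 * s := ⟨_, rfl⟩
  have hs1 : (1 : ℝ) ≤ s := by exact_mod_cast hs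
  have hσ0 : 0 < σ := by linarith
  have hσ2 : 1 ≤ σ ^ 2 := one_le_pow₀ hσ
  have hσZ : σ ^ 2 ≤ Z := by rw [hZ]; exact le_mul_of_one_le_right (by positivity) hs1
  have hZ1 : 1 ≤ Z := hσ2.trans hσZ
  have hZ0 : 0 < Z := by linarith
  have hh1 : 1 ≤ h := by rw [hh]; linarith
  have hh0 : 0 < h := by linarith
  obtain ⟨hb, hN⟩ := hsmall K hKn W hWh F hF
  rw [← hh] at hb hN
  rw [← hh, ← hZ]
  -- the first alternative from a strong separation
  have halt : Sp (nt (W := W.baseChange F)) C₁ (c₁ * h) →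
      Sp (nt (W := W.baseChange F)) (C * σ ^ 2) (c * (h / σ ^ 2)) := by
    intro h1
    refine h1.mono ?_ ?_
    · exact hCa0.trans (le_mul_of_one_le_right (by linarith) hσ2)
    · refine mul_le_mul hca0 (div_le_self hh0.le hσ2) (by positivity) hc₁.le
  by_cases hsm : h ≤ A * Z
  · -- small height
    by_cases hsm2 : hJ W ≤ C'
    · exact Or.inl (halt (hb hsm2))
    push Not at hsm2
    have h1 := hN 1 le_rfl (by rw [one_pow, mul_one]; linarith)
    simp only [one_pow, mul_one, div_one] at h1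
    rcases h1 with h1 | h1 | h1
    · exact Or.inl (halt h1)
    · exact Or.inl (halt h1)
    · right
      refine ⟨fun β hβ hβ3 => ?_, fun m β hm hβ hm2 hβ2 => ?_⟩
      · refine (h1.1 β hβ ?_).mono ?_ le_rfl
        · -- `β ^ 3 Z ^ 2 ≤ c h ^ 3 ≤ c A ^ 2 Z ^ 2 h`
          have h2 : β ^ 3 * Z ^ 2 ≤ c₁ * h * Z ^ 2 := by
            calc β ^ 3 * Z ^ 2 ≤ c * h ^ 3 := hβ3
              _ = c * h * h ^ 2 := by ring
              _ ≤ c * h * (A * Z) ^ 2 :=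
                mul_le_mul_of_nonneg_left (pow_le_pow_left₀ hh0.le hsm 2) (by positivity)
              _ = c * A ^ 2 * (h * Z ^ 2) := by ring
              _ ≤ c₁ * (h * Z ^ 2) := mul_le_mul_of_nonneg_right hca2 (by positivity)
              _ = c₁ * h * Z ^ 2 := by ring
          exact le_of_mul_le_mul_right h2 (by positivity)
        · calc C₁ * h ≤ C₁ * (A * Z) := mul_le_mul_of_nonneg_left hsm (by linarith)
            _ = C₁ * A * Z := by ring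
            _ ≤ C * Z := mul_le_mul_of_nonneg_right hCa1 hZ0.le
      · refine h1.2 m β hm hβ ?_ ?_
        · calc C₁ * h ^ 3 ≤ C₁ * (A * Z) ^ 3 :=
                mul_le_mul_of_nonneg_left (pow_le_pow_left₀ hh0.le hsm 3) (by linarith)
            _ = C₁ * A ^ 3 * Z ^ 3 := by ring
            _ ≤ C * Z ^ 3 := mul_le_mul_of_nonneg_right hCa (by positivity)
            _ ≤ m ^ 2 := hm2
        · have h2 : β ^ 2 * Z ≤ c₁ * h * Z := by
            calc β ^ 2 * Z ≤ c * h ^ 2 := hβ2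
              _ = c * h * h := by ring
              _ ≤ c * h * (A * Z) := mul_le_mul_of_nonneg_left hsm (by positivity)
              _ = c * A * (h * Z) := by ring
              _ ≤ c₁ * (h * Z) := mul_le_mul_of_nonneg_right hca1 (by positivity)
              _ = c₁ * h * Z := by ring
          exact le_of_mul_le_mul_right h2 hZ0
  -- large height
  push Not at hsm
  have hAh : A < h := lt_of_le_of_lt (le_mul_of_one_le_right (by linarith) hZ1) hsm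
  have hnK : (0 : ℝ) < Module.finrank ℚ K := by exact_mod_cast Module.finrank_pos
  have hnF : (0 : ℝ) < Module.finrank ℚ F := by exact_mod_cast Module.finrank_pos
  have hF1 : (1 : ℝ) ≤ Module.finrank ℚ F := by
    exact_mod_cast Nat.succ_le_of_lt Module.finrank_pos
  have hFd : Module.finrank ℚ F ≤ d := by
    rw [hd, ← Module.finrank_mul_finrank ℚ K F]
    exact Nat.mul_le_mul hKn hF
  have hFd' : (Module.finrank ℚ F : ℝ) ≤ d := by exact_mod_cast hFd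
  have hmulF : (Module.finrank ℚ F : ℝ) = Module.finrank ℚ K * Module.finrank K F := by
    exact_mod_cast (Module.finrank_mul_finrank ℚ K F).symm
  have hj0 : W.j ≠ 0 := by
    intro h0
    have h1 := hJ_zero W h0
    linarith
  have hj1 : W.j ≠ 1728 := by
    intro h0
    have h1 := hJ_1728 W h0
    linarith
  have hjF : (W.baseChange F).j = algebraMap K F W.j := j_baseChange W
  have hjF0 : (W.baseChange F).j ≠ 0 := by
    rw [hjF]
    exact fun h => hj0 ((map_eq_zero _).1 h)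
  have hjF1 : (W.baseChange F).j ≠ 1728 := by
    rw [hjF]
    intro h
    apply hj1
    have h2 : algebraMap K F 1728 = 1728 := map_ofNat _ _
    exact (algebraMap K F).injective (h.trans h2.symm)
  obtain ⟨h4, h6, ht, ht0, hκ⟩ := t_eq (W.baseChange F) hjF0 hjF1
  obtain ⟨t, htd⟩ : ∃ t : F, t = (W.baseChange F).Δ / (W.baseChange F).c₆ ^ 2 := ⟨_, rfl⟩
  rw [← htd] at ht ht0 hκ
  have hcmp := hcomp F _ hjF1
  rw [← ht] at hcmp
  have hhJ : hJ W * Module.finrank ℚ F = logHeight₁ (W.baseChange F).j := by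
    rw [hjF, logHeight₁_base, hJ, hmulF]
    field_simp
  rw [← hhJ] at hcmp
  have hTC : TCond t (D * s) (μ * σ) := by
    have hJF : JCond (W.baseChange F).j (D * s) (σ * D) := by
      rw [hjF]
      exact jcond_base W.j s σ hσ0.le hjc D hF
    have h1 := htc F _ (D * s) (σ * D) (by positivity) hjF1 hJF
    rw [← ht] at h1
    refine TCond.mono ht0 ?_ h1
    have h2 : 1 + σ * D ≤ 2 * (D * σ) := by nlinarith
    calc C₂ * Module.finrank ℚ F * (1 + σ * D) ≤ C₂ * d * (2 * (D * σ)) :=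
          mul_le_mul (mul_le_mul_of_nonneg_left hFd' hC₂.le) h2 (by positivity) (by positivity)
      _ = 2 * C₂ * d * D * σ := by ring
      _ ≤ μ * σ := mul_le_mul_of_nonneg_right hμ2 hσ0.le
  obtain ⟨H, hH⟩ : ∃ H : ℝ, H = logHeight₁ t := ⟨_, rfl⟩
  obtain ⟨f, hf⟩ : ∃ f : ℝ, f = Module.finrank ℚ F := ⟨_, rfl⟩
  rw [← hf, ← hH] at hcmp
  rw [← hf] at hnF hF1 hFd'
  have hHlow : h / 4 ≤ H := by
    have h2 := (abs_le.1 hcmp).1
    have h3 : 1 * (hJ W - C₃) ≤ f * (hJ W - C₃) :=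
      mul_le_mul_of_nonneg_right hF1 (by linarith)
    linarith
  have hHpos : 0 < H := by linarith
  have hZD : (μ * σ) ^ 2 * ((D * s : ℕ) : ℝ) = lam * Z := by
    rw [hlam, hZ]
    push_cast
    ring
  have hbig : C₀ * ((μ * σ) ^ 2 * ((D * s : ℕ) : ℝ)) ≤ H := by
    rw [hZD]
    have h1 : 4 * (C₀ * lam) * Z ≤ A * Z := mul_le_mul_of_nonneg_right hA2 hZ0.le
    linarith
  have hxm := xmap_W (W.baseChange F) h4 h6
  rw [← htd] at hxm
  have hmain := hls F hFd t ht0 hκ (D * s) (μ * σ) (Nat.mul_pos (by omega) (by omega))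
    (by nlinarith) hTC (by rw [← hH]; exact hbig) _ _ hxm (canX hx)
    (tendsto_xi (W.baseChange F) h4 h6)
  rw [← hH, hZD] at hmain
  have hcan : ∀ Q : (W.baseChange F).toAffine.Point, canX hx Q = 2 * f * nt Q := by
    intro Q
    rw [hf]
    exact canX_eq_nt Q
  -- transfer
  have htrans : ∀ m b : ℝ, 0 ≤ b → Sp (canX hx (X := (W.baseChange F).toAffine.Point)) m b →
      Sp (nt (W := W.baseChange F)) m (b / (2 * d)) := by
    intro m b hb hs S hS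
    obtain ⟨x, hx', y, hy', hxy, h1⟩ := hs S hS
    refine ⟨x, hx', y, hy', hxy, ?_⟩
    rw [hcan] at h1
    rw [div_le_iff₀ (by positivity)]
    have h2 := nt_nonneg (x - y)
    have h3 : f * nt (x - y) ≤ d * nt (x - y) := mul_le_mul_of_nonneg_right hFd' h2
    linarith
  rcases hmain with h1 | h1
  · left
    refine (htrans _ _ (by positivity) h1).mono ?_ ?_
    · calc C₀ * (μ * σ) ^ 2 = C₀ * μ ^ 2 * σ ^ 2 := by ring
        _ ≤ C * σ ^ 2 := mul_le_mul_of_nonneg_right hCb2 (by positivity)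
    · rw [le_div_iff₀ (by positivity)]
      -- `c (h / σ²) 2 d ≤ c₀ (H / (μ σ)²)`
      have h2 : c₀ * (h / 4 / (μ * σ) ^ 2) ≤ c₀ * (H / (μ * σ) ^ 2) :=
        mul_le_mul_of_nonneg_left (div_le_div_of_nonneg_right hHlow (by positivity)) hc₀.le
      refine le_trans ?_ h2
      have h3 : c * (8 * d * μ ^ 2) ≤ c₀ := by
        refine le_trans ?_ hcb2
        refine mul_le_mul_of_nonneg_left ?_ hcpos.le
        have h5 : d * μ ^ 2 ≤ (d : ℝ) ^ 3 * lam ^ 2 :=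
          mul_le_mul hd3 (hlam1.trans hlam2) (by positivity) (by positivity)
        have h6 : 0 ≤ (d : ℝ) * μ ^ 2 := by positivity
        linarith
      have e1 : c * (h / σ ^ 2) * (2 * d) = c * (8 * d * μ ^ 2) * (h / 4 / (μ * σ) ^ 2) := by
        field_simp
        norm_num
      rw [e1]
      exact mul_le_mul_of_nonneg_right h3 (by positivity)
  · right
    refine ⟨fun β hβ hβ3 => ?_, fun m β hm hβ hm2 hβ2 => ?_⟩
    · have h2 := htrans _ _ (by positivity) (h1.1 (2 * d * β) (by positivity) (by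
        have e : (2 * (d : ℝ) * β) ^ 3 * (lam * Z) ^ 2 = 8 * d ^ 3 * lam ^ 2 * (β ^ 3 * Z ^ 2) := by
          ring
        rw [e]
        calc 8 * (d : ℝ) ^ 3 * lam ^ 2 * (β ^ 3 * Z ^ 2) ≤ 8 * d ^ 3 * lam ^ 2 * (c * h ^ 3) :=
              mul_le_mul_of_nonneg_left hβ3 (by positivity)
          _ = c * (512 * d ^ 3 * lam ^ 2) * (h / 4) ^ 3 := by ring
          _ ≤ c₀ * (h / 4) ^ 3 := mul_le_mul_of_nonneg_right hcb2 (by positivity)
          _ ≤ c₀ * H ^ 3 :=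
            mul_le_mul_of_nonneg_left (pow_le_pow_left₀ (by positivity) hHlow 3) hc₀.le))
      refine h2.mono ?_ (le_of_eq ?_)
      · calc C₀ * (lam * Z) = C₀ * lam * Z := by ring
          _ ≤ C * Z := mul_le_mul_of_nonneg_right hCb1 hZ0.le
      · field_simp
    · have h2 := htrans _ _ (by positivity) (h1.2 m (2 * d * β) hm (by positivity)
        (by
          refine le_trans ?_ hm2
          calc C₀ * (lam * Z) ^ 3 = C₀ * lam ^ 3 * Z ^ 3 := by ring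
            _ ≤ C * Z ^ 3 := mul_le_mul_of_nonneg_right hCb (by positivity))
        (by
          have e : (2 * (d : ℝ) * β) ^ 2 * (lam * Z) = 4 * d ^ 2 * lam * (β ^ 2 * Z) := by ring
          rw [e]
          have h5 : (d : ℝ) ^ 2 * lam ≤ d ^ 3 * lam ^ 2 :=
            mul_le_mul hd23 hlam2 (by positivity) (by positivity)
          have h6 : 0 ≤ (d : ℝ) ^ 3 * lam ^ 2 := by positivity
          calc 4 * (d : ℝ) ^ 2 * lam * (β ^ 2 * Z) ≤ 4 * d ^ 2 * lam * (c * h ^ 2) :=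
                mul_le_mul_of_nonneg_left hβ2 (by positivity)
            _ = c * (64 * (d ^ 2 * lam)) * (h / 4) ^ 2 := by ring
            _ ≤ c₀ * (h / 4) ^ 2 := by
              refine mul_le_mul_of_nonneg_right (le_trans ?_ hcb2) (by positivity)
              refine mul_le_mul_of_nonneg_left ?_ hcpos.le
              linarith
            _ ≤ c₀ * H ^ 2 :=
              mul_le_mul_of_nonneg_left (pow_le_pow_left₀ (by positivity) hHlow 2) hc₀.le))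
      refine h2.mono le_rfl (le_of_eq ?_)
      field_simp

/-- The exponent of the number of places. -/
noncomputable def eexp (g : ℕ) : ℝ := min (2 / 3 + 2 / g) (1 / 2 + 3 / g)

/-- The loss in the lower bound. -/
noncomputable def loss (g s : ℕ) (σ : ℝ) : ℝ := (s : ℝ) ^ eexp g * σ ^ (2 + 4 / g : ℝ)

theorem eexp_nonneg (g : ℕ) : 0 ≤ eexp g := by
  unfold eexp
  exact le_min (by positivity) (by positivity)

theorem one_le_loss (g s : ℕ) (σ : ℝ) (hs : 1 ≤ s) (hσ : 1 ≤ σ) : 1 ≤ loss g s σ := by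
  unfold loss
  have h1 : 1 ≤ (s : ℝ) ^ eexp g := Real.one_le_rpow (by exact_mod_cast hs) (eexp_nonneg g)
  have h2 : 1 ≤ σ ^ (2 + 4 / g : ℝ) := Real.one_le_rpow hσ (by positivity)
  nlinarith

/-- For every curve there is a pair `m, b` with `Sp m b` and `m`, `b` of the right size. -/
theorem sepP_pow (n : ℕ) (hn1 : 1 ≤ n) (g : ℕ) (hg : 1 ≤ g) (D : ℕ) (hD : 1 ≤ D)
    (τ : ℝ) : ∃ C c : ℝ, 1 ≤ C ∧ 0 < c ∧ ∀ (K : Type) [Field K] [NumberField K],
    Module.finrank ℚ K ≤ n → ∀ (W : WeierstrassCurve K) [W.IsElliptic],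
    hW W ≤ τ * (1 + hJ W) → ∀ (s : ℕ) (σ : ℝ), 1 ≤ s → 1 ≤ σ → JCond W.j s σ →
    ∀ (F : Type) [Field F] [NumberField F] [DecidableEq F] [Algebra K F],
      Module.finrank K F ≤ D → ∃ m b : ℝ, 1 ≤ m ∧ m ≤ C * (σ ^ 2 * s) ^ 2 ∧ 0 < b ∧
        Sp (nt (W := W.baseChange F)) m b ∧
        c * (1 + hJ W) * m ^ (2 / g : ℝ) ≤ b * loss g s σ := by
  have hg0 : (0 : ℝ) < g := by exact_mod_cast hg
  obtain ⟨C, c, hC, hc, hmain⟩ := sepP_W n hn1 D hD τ
  have hC0 : 0 < C := by linarith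
  have hCg : 0 < C ^ (2 / g : ℝ) := by positivity
  obtain ⟨a, ha⟩ : ∃ a : ℝ, a = min c (min (c ^ (1 / 3 : ℝ)) (c ^ (1 / 2 : ℝ))) := ⟨_, rfl⟩
  have ha0 : 0 < a := by rw [ha]; positivity
  have hmin1 : a ≤ c := by rw [ha]; exact min_le_left _ _
  have hmin2 : a ≤ c ^ (1 / 3 : ℝ) := by
    rw [ha]; exact (min_le_right _ _).trans (min_le_left _ _)
  have hmin3 : a ≤ c ^ (1 / 2 : ℝ) := by
    rw [ha]; exact (min_le_right _ _).trans (min_le_right _ _)
  refine ⟨C, a / C ^ (2 / g : ℝ), hC, by positivity, ?_⟩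
  intro K _ _ hKn W _ hWh s σ hs hσ hjc F _ _ _ _ hF
  have hsep := hmain K hKn W hWh s σ hs hσ hjc F hF
  have hjn := hJ_nonneg W
  obtain ⟨h, hh⟩ : ∃ h : ℝ, h = 1 + hJ W := ⟨_, rfl⟩
  rw [← hh] at hsep ⊢
  have hh1 : 1 ≤ h := by rw [hh]; linarith
  have hh0 : 0 < h := by linarith
  have hs1 : (1 : ℝ) ≤ s := by exact_mod_cast hs
  have hs0 : (0 : ℝ) < s := by linarith
  have hσ0 : 0 < σ := by linarith
  have hσ2 : 1 ≤ σ ^ 2 := one_le_pow₀ hσ
  obtain ⟨Z, hZ⟩ : ∃ Z : ℝ, Z = σ ^ 2 * s := ⟨_, rfl⟩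
  have hσZ : σ ^ 2 ≤ Z := by rw [hZ]; exact le_mul_of_one_le_right (by positivity) hs1
  have hZ1 : 1 ≤ Z := hσ2.trans hσZ
  have hZ0 : 0 < Z := by linarith
  have hZ2 : Z ≤ Z ^ 2 := le_self_pow₀ hZ1 (by norm_num)
  rw [← hZ] at hsep ⊢
  have hZpow : ∀ e : ℝ, Z ^ e = σ ^ (2 * e) * (s : ℝ) ^ e := by
    intro e
    rw [hZ, Real.mul_rpow (by positivity) hs0.le, ← Real.rpow_natCast σ 2,
      ← Real.rpow_mul hσ0.le]
    norm_num
  rcases hsep with hsp | hsp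
  · refine ⟨C * σ ^ 2, c * (h / σ ^ 2), ?_, ?_, by positivity, hsp, ?_⟩
    · nlinarith
    · exact mul_le_mul_of_nonneg_left (hσZ.trans hZ2) hC0.le
    · have e1 : (C * σ ^ 2) ^ (2 / g : ℝ) = C ^ (2 / g : ℝ) * σ ^ (4 / g : ℝ) := by
        rw [Real.mul_rpow hC0.le (by positivity), ← Real.rpow_natCast σ 2,
          ← Real.rpow_mul hσ0.le]
        congr 2
        push_cast
        ring
      have e2 : σ ^ (2 + 4 / g : ℝ) = σ ^ 2 * σ ^ (4 / g : ℝ) := by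
        rw [Real.rpow_add hσ0]
        norm_num
      have h1 : 1 ≤ (s : ℝ) ^ eexp g := Real.one_le_rpow hs1 (eexp_nonneg g)
      rw [e1, loss, e2]
      calc a / C ^ (2 / g : ℝ) * h * (C ^ (2 / g : ℝ) * σ ^ (4 / g : ℝ)) =
            a * (h * σ ^ (4 / g : ℝ)) := by field_simp
        _ ≤ c * (h * σ ^ (4 / g : ℝ)) := mul_le_mul_of_nonneg_right hmin1 (by positivity)
        _ = c * (h / σ ^ 2) * (1 * (σ ^ 2 * σ ^ (4 / g : ℝ))) := by field_simp
        _ ≤ c * (h / σ ^ 2) * ((s : ℝ) ^ eexp g * (σ ^ 2 * σ ^ (4 / g : ℝ))) := by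
          refine mul_le_mul_of_nonneg_left ?_ (by positivity)
          exact mul_le_mul_of_nonneg_right h1 (by positivity)
  rcases min_choice (2 / 3 + 2 / g : ℝ) (1 / 2 + 3 / g) with hch | hch
  · -- the code bound
    have hsp1 := hsp.1 (c ^ (1 / 3 : ℝ) * h * Z ^ (-(2 / 3) : ℝ)) (by positivity) (by
      rw [mul_pow, mul_pow, ← Real.rpow_natCast (c ^ (1 / 3 : ℝ)), ← Real.rpow_mul hc.le,
        ← Real.rpow_natCast (Z ^ (-(2 / 3) : ℝ)), ← Real.rpow_mul hZ0.le]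
      have a1 : (1 / 3 : ℝ) * ((3 : ℕ) : ℝ) = 1 := by norm_num
      have a2 : (-(2 / 3) : ℝ) * ((3 : ℕ) : ℝ) = -((2 : ℕ) : ℝ) := by push_cast; norm_num
      rw [a1, a2, Real.rpow_one, Real.rpow_neg hZ0.le, Real.rpow_natCast]
      have : c * h ^ 3 * (Z ^ 2)⁻¹ * Z ^ 2 = c * h ^ 3 := by field_simp
      rw [this])
    refine ⟨C * Z, _, by nlinarith, mul_le_mul_of_nonneg_left hZ2 hC0.le, by positivity,
      hsp1, ?_⟩
    have he : eexp g = 2 / 3 + 2 / g := by rw [eexp, hch]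
    have e1 : loss g s σ = Z ^ (2 / 3 + 2 / g : ℝ) * σ ^ (2 / 3 : ℝ) := by
      rw [loss, he, hZpow]
      have e2 : (2 + 4 / g : ℝ) = 2 * (2 / 3 + 2 / g) + 2 / 3 := by ring
      rw [e2, Real.rpow_add hσ0]
      ring
    have h1 : 1 ≤ σ ^ (2 / 3 : ℝ) := Real.one_le_rpow hσ (by norm_num)
    have e3 : Z ^ (-(2 / 3) : ℝ) * Z ^ (2 / 3 + 2 / g : ℝ) = Z ^ (2 / g : ℝ) := by
      rw [← Real.rpow_add hZ0]
      congr 1
      ring
    rw [Real.mul_rpow hC0.le hZ0.le, e1]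
    calc a / C ^ (2 / g : ℝ) * h * (C ^ (2 / g : ℝ) * Z ^ (2 / g : ℝ)) =
          a * (h * Z ^ (2 / g : ℝ)) := by field_simp
      _ ≤ c ^ (1 / 3 : ℝ) * (h * Z ^ (2 / g : ℝ)) :=
        mul_le_mul_of_nonneg_right hmin2 (by positivity)
      _ = c ^ (1 / 3 : ℝ) * h * (Z ^ (-(2 / 3) : ℝ) * Z ^ (2 / 3 + 2 / g : ℝ)) * 1 := by
        rw [e3]; ring
      _ ≤ c ^ (1 / 3 : ℝ) * h * (Z ^ (-(2 / 3) : ℝ) * Z ^ (2 / 3 + 2 / g : ℝ)) *
          σ ^ (2 / 3 : ℝ) := mul_le_mul_of_nonneg_left h1 (by positivity)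
      _ = _ := by ring
  · -- the third moment
    have hg2 : (2 : ℝ) / g ≤ 1 := by
      have h1 : min (2 / 3 + 2 / g : ℝ) (1 / 2 + 3 / g) ≤ 2 / 3 + 2 / g := min_le_left _ _
      rw [hch] at h1
      have h2 : (1 : ℝ) / g ≤ 1 / 6 := by
        have e : (3 : ℝ) / g = 2 / g + 1 / g := by ring
        linarith
      have e : (2 : ℝ) / g = 2 * (1 / g) := by ring
      linarith
    have hm2 : (Z ^ (3 / 2 : ℝ)) ^ 2 = Z ^ 3 := by
      rw [← Real.rpow_natCast (Z ^ (3 / 2 : ℝ)), ← Real.rpow_mul hZ0.le,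
        ← Real.rpow_natCast Z 3]
      congr 1
      push_cast
      norm_num
    have hsp1 := hsp.2 (C * Z ^ (3 / 2 : ℝ)) (c ^ (1 / 2 : ℝ) * h * Z ^ (-(1 / 2) : ℝ))
      (by positivity) (by positivity)
      (by
        rw [mul_pow, hm2]
        refine mul_le_mul_of_nonneg_right ?_ (by positivity)
        nlinarith)
      (by
        rw [mul_pow, mul_pow, ← Real.rpow_natCast (c ^ (1 / 2 : ℝ)), ← Real.rpow_mul hc.le,
          ← Real.rpow_natCast (Z ^ (-(1 / 2) : ℝ)), ← Real.rpow_mul hZ0.le]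
        have a1 : (1 / 2 : ℝ) * ((2 : ℕ) : ℝ) = 1 := by norm_num
        have a2 : (-(1 / 2) : ℝ) * ((2 : ℕ) : ℝ) = -1 := by push_cast; norm_num
        rw [a1, a2, Real.rpow_one, Real.rpow_neg hZ0.le, Real.rpow_one]
        have : c * h ^ 2 * Z⁻¹ * Z = c * h ^ 2 := by field_simp
        rw [this])
    have hZ32 : Z ^ (3 / 2 : ℝ) ≤ Z ^ 2 := by
      calc Z ^ (3 / 2 : ℝ) ≤ Z ^ (2 : ℝ) :=
            Real.rpow_le_rpow_of_exponent_le hZ1 (by norm_num)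
        _ = Z ^ 2 := by norm_cast
    refine ⟨C * Z ^ (3 / 2 : ℝ), _, ?_, mul_le_mul_of_nonneg_left hZ32 hC0.le, by positivity,
      hsp1, ?_⟩
    · have h1 : 1 ≤ Z ^ (3 / 2 : ℝ) := Real.one_le_rpow hZ1 (by norm_num)
      nlinarith
    have he : eexp g = 1 / 2 + 3 / g := by rw [eexp, hch]
    have e1 : loss g s σ = Z ^ (1 / 2 + 3 / g : ℝ) * σ ^ (1 - 2 / g : ℝ) := by
      rw [loss, he, hZpow]
      have e2 : (2 + 4 / g : ℝ) = 2 * (1 / 2 + 3 / g) + (1 - 2 / g) := by ring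
      rw [e2, Real.rpow_add hσ0]
      ring
    have h1 : 1 ≤ σ ^ (1 - 2 / g : ℝ) := Real.one_le_rpow hσ (by linarith)
    have e3 : Z ^ (-(1 / 2) : ℝ) * Z ^ (1 / 2 + 3 / g : ℝ) = Z ^ (3 / g : ℝ) := by
      rw [← Real.rpow_add hZ0]
      congr 1
      ring
    have e4 : (Z ^ (3 / 2 : ℝ)) ^ (2 / g : ℝ) = Z ^ (3 / g : ℝ) := by
      rw [← Real.rpow_mul hZ0.le]
      congr 1
      ring
    rw [Real.mul_rpow hC0.le (by positivity), e4, e1]
    calc a / C ^ (2 / g : ℝ) * h * (C ^ (2 / g : ℝ) * Z ^ (3 / g : ℝ)) =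
          a * (h * Z ^ (3 / g : ℝ)) := by field_simp
      _ ≤ c ^ (1 / 2 : ℝ) * (h * Z ^ (3 / g : ℝ)) :=
        mul_le_mul_of_nonneg_right hmin3 (by positivity)
      _ = c ^ (1 / 2 : ℝ) * h * (Z ^ (-(1 / 2) : ℝ) * Z ^ (1 / 2 + 3 / g : ℝ)) * 1 := by
        rw [e3]; ring
      _ ≤ c ^ (1 / 2 : ℝ) * h * (Z ^ (-(1 / 2) : ℝ) * Z ^ (1 / 2 + 3 / g : ℝ)) *
          σ ^ (1 - 2 / g : ℝ) := mul_le_mul_of_nonneg_left h1 (by positivity)
      _ = _ := by ring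

end Pow

end LangForms
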